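import Pool.Agent.Helper89.VD.Main
import Pool.Agent.Helper64.GS.Oct

/-!
# VD-FINAL: the exponent 0.6248 for the disc, all centres, all radii

`octG` is `Helper64.GS.oct_bound0` (`376/1000 ≤ 7/18 - 1/1000`).
-/

open MeasureTheory Real Set Filter Topology

set_option autoImplicit false

namespace Pool.Agent.Helper89.VD

open Pool.Agent.Helper92.GC

theorem octG : OctG := by
  intro ε hε
  obtain ⟨δ, hδ, hδε, hδ1⟩ : ∃ δ : ℝ, 0 < δ ∧ δ ≤ ε ∧ δ ≤ 1 / 1000 :=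
    ⟨min ε (1 / 1000), lt_min hε (by norm_num), min_le_left _ _, min_le_right _ _⟩
  obtain ⟨C, hC, h⟩ := Pool.Agent.Helper64.GS.oct_bound0 hδ hδ1
  refine ⟨C, hC, fun R₀ R K h1 h2 h3 h4 h5 i hi c => ?_⟩
  have hR0 : 0 < R₀ := by linarith
  have h4' : R₀ ^ (1 / 4 + δ) ≤ K :=
    (rpow_le_rpow_of_exponent_le h1 (by linarith)).trans h4
  have h5' : (K : ℝ) ≤ R₀ ^ (7 / 18 - δ) :=
    h5.trans (rpow_le_rpow_of_exponent_le h1 (by linarith))
  refine (h R₀ R K h1 h2 h3 h4' h5' i hi c).trans ?_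
  rw [rpow_zero, mul_one]
  have h6 : R₀ ^ δ ≤ R₀ ^ ε := rpow_le_rpow_of_exponent_le h1 hδε
  gcongr

/-- **The circle problem with the exponent 0.6248 < 5/8**, for all radii and all centres. -/
theorem main : ∃ C : ℝ, ∀ R : ℝ, 1 ≤ R → ∀ c : ℝ × ℝ, |dcnt c R - π * R ^ 2| ≤ C * R ^ (6248 / 10000 : ℝ) :=
  main_below octG

end Pool.Agent.Helper89.VD
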