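import Pool.Agent.Helper89.VD.V6
import Pool.Agent.Helper92.GC.Main

/-!
# VD-MAIN: exponent 0.6248 < 5/8 from the Gaussian octant bound

`OctG` is the octant bound that follows from the Gaussian shell moment (project GS, /team-store/h76_GS_plan.md).
PROOF. As the proof of `main6` in Helper92/GC/Main.lean (copy it), with `τ = 0.3752`, `1 - τ = 0.6248`, a fixed small `e2 = 1/10^5` (`τ + e2 ≤ 0.376`), and `ε = 1/10^6` in `OctG`. With `K = 2^n ≤ X^(τ + e2)` the bound of the octant sum is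
(A) `25 K²` if `K ≤ X^(0.2496)` (`sqa_triv`): `X^(1/2) K^(1/2) · 25 ≤ 25 X^(0.6248)`. This block sum is over `n` with `K = 2^n ≤ X^(0.2496)`: to avoid the logarithm sum the geometric series, `∑_n X^(1/2) 2^(n/2) ≤ 4 X^(1/2 + 0.1248)`
(or use (A) only for `K ≤ X^(0.2495)` and (B) from there on; in (B) the exponent is then still below).
(B) `oct_small` if `X^(0.2495) ≤ K ≤ X^(0.2588)`: the conditions `4X ≤ K⁵`, `(2K)^(19/5) ≤ X/4` hold for `X ≥ X₁`; `X^(1/2) K^(-3/2) K² (X/K⁵)^(1/63) = X^(1/2 + 1/63) K^(1/2 - 5/63) ≤ X^(0.62474)`.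
(C) `OctG` if `K ≥ X^(0.2588)`: `X^(1/2) K^(-3/2) X^ε K^(4/3) (X K)^(2/15) = X^(19/30 + ε) K^(-1/30) ≤ X^(0.62472)`.
So every block is at most `C X^(0.62475)` (block (A) with `0.2495`: `X^(0.62475)`), plus the terms `16 K X^(1/2) K^(-3/2) ≤ 16 X^(1/2)`, and there are at most `C log X ≤ C X^(1/20000)` blocks. `X ≤ X₁`: `dcnt_bdd`.
-/

open MeasureTheory Real Set Filter Topology

set_option autoImplicit false

namespace Pool.Agent.Helper89.VD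

open Pool.Agent.Helper92.GC

/-- the Gaussian bound of the octant sum -/
def OctG : Prop := ∀ ε : ℝ, 0 < ε → ∃ C : ℝ, 0 < C ∧ ∀ (R₀ R : ℝ) (K : ℕ), 1 ≤ R₀ → R₀ / 4 ≤ R → R ≤ 4 * R₀ →
  R₀ ^ (1 / 4 + ε) ≤ K → (K : ℝ) ≤ R₀ ^ (376 / 1000 : ℝ) → ∀ i : ℕ, (i = 1 ∨ i = 2) → ∀ c : ℝ × ℝ,
    ‖bs (oct K) K i R c‖ ≤ C * R₀ ^ ε * (K : ℝ) ^ (4 / 3 : ℝ) * (R₀ * K) ^ (2 / 15 : ℝ)

open Pool.Agent.Helper22.AE in
private lemma blockA40 {X K : ℝ} (hX : 1 ≤ X) (hK1 : 1 ≤ K) (hK4 : K ≤ X ^ (2495 / 10000 : ℝ)) :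
    X ^ (1 / 2 : ℝ) * K ^ (-(3 / 2) : ℝ) * (25 * K ^ 2) ≤ 25 * X ^ (62475 / 100000 : ℝ) := by
  have hX0 : 0 < X := by linarith
  have hK0 : 0 < K := by linarith
  obtain ⟨x, rfl⟩ : ∃ x, X = exp x := ⟨log X, (exp_log hX0).symm⟩
  obtain ⟨k, rfl⟩ : ∃ k, K = exp k := ⟨log K, (exp_log hK0).symm⟩
  have hx : 0 ≤ x := one_le_exp_iff.1 hX
  have hk : 0 ≤ k := one_le_exp_iff.1 hK1
  rw [← exp_mul, exp_le_exp] at hK4
  simp only [← exp_mul]
  have e : exp k ^ 2 = exp (2 * k) := by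
    rw [← exp_nat_mul]
    norm_num
  rw [e]
  have e1 : exp (x * (1 / 2)) * exp (k * -(3 / 2)) * (25 * exp (2 * k)) =
      25 * exp (x * (1 / 2) + k * -(3 / 2) + 2 * k) := by
    simp only [exp_add]
    ring
  rw [e1]
  refine mul_le_mul_of_nonneg_left (exp_le_exp.2 ?_) (by norm_num)
  linarith

private lemma blockB40 {C X K : ℝ} (hC : 0 < C) (hX : 1 ≤ X) (hK1 : 1 ≤ K) (hK4 : K ≤ X ^ (2588 / 10000 : ℝ)) :
    X ^ (1 / 2 : ℝ) * K ^ (-(3 / 2) : ℝ) * (8 * (C * K ^ 2 * (X / K ^ 5) ^ (1 / 63 : ℝ)) + 16 * K) ≤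
      (8 * C + 16) * X ^ (62475 / 100000 : ℝ) := by
  have hX0 : 0 < X := by linarith
  have hK0 : 0 < K := by linarith
  obtain ⟨x, rfl⟩ : ∃ x, X = exp x := ⟨log X, (exp_log hX0).symm⟩
  obtain ⟨k, rfl⟩ : ∃ k, K = exp k := ⟨log K, (exp_log hK0).symm⟩
  have hx : 0 ≤ x := one_le_exp_iff.1 hX
  have hk : 0 ≤ k := one_le_exp_iff.1 hK1
  rw [← exp_mul, exp_le_exp] at hK4
  have e : exp k ^ 2 = exp (2 * k) := by
    rw [← exp_nat_mul]
    norm_num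
  have e5 : exp x / exp k ^ 5 = exp (x - 5 * k) := by
    rw [exp_sub, ← exp_nat_mul]
    norm_num
  rw [e, e5]
  simp only [← exp_mul]
  have e1 : exp (x * (1 / 2)) * exp (k * -(3 / 2)) * (8 * (C * exp (2 * k) * exp ((x - 5 * k) * (1 / 63))) +
      16 * exp k) = 8 * C * exp (x * (1 / 2) + k * -(3 / 2) + 2 * k + (x - 5 * k) * (1 / 63)) +
      16 * exp (x * (1 / 2) + k * -(3 / 2) + k) := by
    simp only [exp_add]
    ring
  rw [e1]
  have h2 : exp (x * (1 / 2) + k * -(3 / 2) + 2 * k + (x - 5 * k) * (1 / 63)) ≤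
      exp (x * (62475 / 100000)) := by
    rw [exp_le_exp]
    linarith
  have h5 : exp (x * (1 / 2) + k * -(3 / 2) + k) ≤ exp (x * (62475 / 100000)) := by
    rw [exp_le_exp]
    linarith
  have h6 := mul_le_mul_of_nonneg_left h2 (show 0 ≤ 8 * C by positivity)
  linarith

private lemma blockC40 {C X K : ℝ} (hC : 0 < C) (hX : 1 ≤ X) (hK1 : 1 ≤ K) (hK4 : X ^ (2588 / 10000 : ℝ) ≤ K) :
    X ^ (1 / 2 : ℝ) * K ^ (-(3 / 2) : ℝ) * (8 * (C * X ^ (1 / 1000000 : ℝ) * K ^ (4 / 3 : ℝ) *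
      (X * K) ^ (2 / 15 : ℝ)) + 16 * K) ≤ (8 * C + 16) * X ^ (62475 / 100000 : ℝ) := by
  have hX0 : 0 < X := by linarith
  have hK0 : 0 < K := by linarith
  obtain ⟨x, rfl⟩ : ∃ x, X = exp x := ⟨log X, (exp_log hX0).symm⟩
  obtain ⟨k, rfl⟩ : ∃ k, K = exp k := ⟨log K, (exp_log hK0).symm⟩
  have hx : 0 ≤ x := one_le_exp_iff.1 hX
  have hk : 0 ≤ k := one_le_exp_iff.1 hK1
  rw [← exp_mul, exp_le_exp] at hK4
  rw [← exp_add]
  simp only [← exp_mul]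
  have e1 : exp (x * (1 / 2)) * exp (k * -(3 / 2)) * (8 * (C * exp (x * (1 / 1000000)) * exp (k * (4 / 3)) *
      exp ((x + k) * (2 / 15))) + 16 * exp k) =
      8 * C * exp (x * (1 / 2) + k * -(3 / 2) + x * (1 / 1000000) + k * (4 / 3) + (x + k) * (2 / 15)) +
        16 * exp (x * (1 / 2) + k * -(3 / 2) + k) := by
    simp only [exp_add]
    ring
  rw [e1]
  have h2 : exp (x * (1 / 2) + k * -(3 / 2) + x * (1 / 1000000) + k * (4 / 3) + (x + k) * (2 / 15)) ≤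
      exp (x * (62475 / 100000)) := by
    rw [exp_le_exp]
    linarith
  have h5 : exp (x * (1 / 2) + k * -(3 / 2) + k) ≤ exp (x * (62475 / 100000)) := by
    rw [exp_le_exp]
    linarith
  have h6 := mul_le_mul_of_nonneg_left h2 (show 0 ≤ 8 * C by positivity)
  linarith

private lemma large40 : ∃ X₁ : ℝ, 1 ≤ X₁ ∧ ∀ X K : ℝ, X₁ ≤ X → 1 ≤ K → X ^ (2495 / 10000 : ℝ) ≤ K →
    K ≤ X ^ (2588 / 10000 : ℝ) → 4 * X ≤ K ^ 5 ∧ (2 * K) ^ (19 / 5 : ℝ) ≤ X / 4 := by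
  have ht1 := (tendsto_rpow_atTop (show (0 : ℝ) < 2475 / 10000 by norm_num)).eventually_ge_atTop 4
  have ht2 := (tendsto_rpow_atTop (show (0 : ℝ) < 1 / 100 by norm_num)).eventually_ge_atTop
    (4 * 2 ^ (19 / 5 : ℝ))
  obtain ⟨A, hA⟩ := (ht1.and ht2).exists_forall_of_atTop
  refine ⟨max A 1, le_max_right _ _, ?_⟩
  intro X K hX hK1 hKl hKu
  have hX1 : 1 ≤ X := (le_max_right _ _).trans hX
  have hX0 : 0 < X := by linarith
  have hK0 : 0 < K := by linarith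
  obtain ⟨h1, h2⟩ := hA X ((le_max_left _ _).trans hX)
  constructor
  · have h3 : (X ^ (2495 / 10000 : ℝ)) ^ 5 ≤ K ^ 5 := pow_le_pow_left₀ (by positivity) hKl 5
    have h4 : (X ^ (2495 / 10000 : ℝ)) ^ 5 = X ^ (2475 / 10000 : ℝ) * X := by
      rw [← rpow_natCast, ← rpow_mul hX0.le]
      nth_rewrite 3 [← rpow_one X]
      rw [← rpow_add hX0]
      norm_num
    have h5 : 4 * X ≤ X ^ (2475 / 10000 : ℝ) * X := mul_le_mul_of_nonneg_right h1 hX0.le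
    linarith
  · rw [mul_rpow (by norm_num) hK0.le]
    have h3 : K ^ (19 / 5 : ℝ) ≤ (X ^ (2588 / 10000 : ℝ)) ^ (19 / 5 : ℝ) :=
      rpow_le_rpow hK0.le hKu (by norm_num)
    have h4 : (X ^ (2588 / 10000 : ℝ)) ^ (19 / 5 : ℝ) ≤ X ^ (99 / 100 : ℝ) := by
      rw [← rpow_mul hX0.le]
      exact rpow_le_rpow_of_exponent_le hX1 (by norm_num)
    have h5 : X ^ (1 / 100 : ℝ) * X ^ (99 / 100 : ℝ) = X := by
      rw [← rpow_add hX0]
      norm_num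
    have h6 : 0 ≤ X ^ (99 / 100 : ℝ) := by positivity
    have h7 : 4 * 2 ^ (19 / 5 : ℝ) * X ^ (99 / 100 : ℝ) ≤ X := by
      calc 4 * 2 ^ (19 / 5 : ℝ) * X ^ (99 / 100 : ℝ) ≤ X ^ (1 / 100 : ℝ) * X ^ (99 / 100 : ℝ) :=
            mul_le_mul_of_nonneg_right h2 h6
        _ = X := h5
    have h8 : (2 : ℝ) ^ (19 / 5 : ℝ) * K ^ (19 / 5 : ℝ) ≤ 2 ^ (19 / 5 : ℝ) * X ^ (99 / 100 : ℝ) :=
      mul_le_mul_of_nonneg_left (h3.trans h4) (by positivity)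
    linarith

open Pool.Agent.Helper22.AE in
theorem main_below (hG : OctG) : ∃ C : ℝ, ∀ R : ℝ, 1 ≤ R → ∀ c : ℝ × ℝ, |dcnt c R - π * R ^ 2| ≤ C * R ^ (6248 / 10000 : ℝ) := by
  obtain ⟨C1, R1, hR1, hblocks⟩ := disc_blocks (τ := 3752 / 10000) (e2 := 1 / 100000) (by norm_num)
    (by norm_num) (by norm_num)
  obtain ⟨C2, hC2, hft⟩ := ft_sum_bound
  obtain ⟨C3, hC3, hoct⟩ := hG (1 / 1000000) (by norm_num)
  obtain ⟨C5, hC5, hsml⟩ := oct_small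
  obtain ⟨X₁, hX₁, hlarge⟩ := large40
  obtain ⟨C4, hbdd⟩ := dcnt_bdd (max R1 X₁)
  refine ⟨|C1| + 40001 * (C2 * (8 * C3 + 8 * C5 + 42)) + |C4|, ?_⟩
  intro X hX c
  have hX0 : 0 < X := by linarith
  have hbig : 1 ≤ X ^ (6248 / 10000 : ℝ) := one_le_rpow hX (by norm_num)
  have hc1 : 0 ≤ |C1| := abs_nonneg _
  have hc4 : 0 ≤ |C4| := abs_nonneg _
  have hc2 : 0 ≤ 40001 * (C2 * (8 * C3 + 8 * C5 + 42)) := by positivity
  rcases le_total X (max R1 X₁) with hXR | hXR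
  · refine (hbdd X hX hXR c).trans ((le_abs_self _).trans ?_)
    nlinarith
  have hXR1 : R1 ≤ X := (le_max_left _ _).trans hXR
  have hXX1 : X₁ ≤ X := (le_max_right _ _).trans hXR
  -- the number of blocks
  have hl2 : 0 < log 2 := log_pos (by norm_num)
  have hlX : 0 ≤ log X := log_nonneg hX
  set n1 : ℕ := ⌈(3752 / 10000 + 1 / 100000 : ℝ) * (log X / log 2)⌉₊ with hn1
  have hpow : X ^ (3752 / 10000 + 1 / 100000 : ℝ) =
      (2 : ℝ) ^ ((3752 / 10000 + 1 / 100000 : ℝ) * (log X / log 2)) := by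
    rw [rpow_def_of_pos hX0, rpow_def_of_pos (by norm_num : (0 : ℝ) < 2)]
    congr 1
    field_simp
  have hn1a : X ^ (3752 / 10000 + 1 / 100000 : ℝ) ≤ 2 ^ n1 := by
    rw [hpow, ← rpow_natCast]
    exact rpow_le_rpow_of_exponent_le (by norm_num) (Nat.le_ceil _)
  have hn1b : ∀ n < n1, (2 : ℝ) ^ n ≤ X ^ (3752 / 10000 + 1 / 100000 : ℝ) := by
    intro n hn
    rw [hpow, ← rpow_natCast]
    exact rpow_le_rpow_of_exponent_le (by norm_num) (Nat.lt_ceil.1 hn).le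
  have hn1c : (n1 : ℝ) ≤ 40001 * X ^ (1 / 20000 : ℝ) := by
    have h1 : (n1 : ℝ) < (3752 / 10000 + 1 / 100000 : ℝ) * (log X / log 2) + 1 :=
      Nat.ceil_lt_add_one (by positivity)
    have h2 : log X ≤ X ^ (1 / 20000 : ℝ) / (1 / 20000) := log_le_rpow_div hX0.le (by norm_num)
    have h3 : (1 : ℝ) / 2 < log 2 := by
      have := log_two_gt_d9
      linarith
    have h4 : log X / log 2 ≤ 2 * log X := by
      rw [div_le_iff₀ hl2]
      nlinarith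
    have h6 : 0 ≤ log X / log 2 := by positivity
    have h7 : 1 ≤ X ^ (1 / 20000 : ℝ) := one_le_rpow hX (by norm_num)
    have h8 : X ^ (1 / 20000 : ℝ) / (1 / 20000) = 20000 * X ^ (1 / 20000 : ℝ) := by ring
    linarith
  -- the bounds of the blocks
  set S : ℕ → ℝ := fun K => if (K : ℝ) ≤ X ^ (2495 / 10000 : ℝ) then 25 * (K : ℝ) ^ 2 else
    if (K : ℝ) ≤ X ^ (2588 / 10000 : ℝ) then
      8 * (C5 * (K : ℝ) ^ 2 * (X / (K : ℝ) ^ 5) ^ (1 / 63 : ℝ)) + 16 * K else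
    8 * (C3 * X ^ (1 / 1000000 : ℝ) * (K : ℝ) ^ (4 / 3 : ℝ) * (X * K) ^ (2 / 15 : ℝ)) + 16 * K with hS
  set B : ℕ → ℝ := fun n => C2 * (X ^ (1 / 2 : ℝ) * ((2 ^ n : ℕ) : ℝ) ^ (-(3 / 2) : ℝ) * S (2 ^ n) + 1)
    with hB
  have hK1 : ∀ n : ℕ, (1 : ℝ) ≤ ((2 ^ n : ℕ) : ℝ) := by
    intro n
    push_cast
    exact one_le_pow₀ (by norm_num)
  have hSnn : ∀ K : ℕ, 0 ≤ S K := by
    intro K
    simp only [hS]
    split_ifs
    · positivity
    · positivity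
    · positivity
  have hBle : ∀ n ∈ Finset.range n1, B n ≤ C2 * (8 * C3 + 8 * C5 + 42) * X ^ (62475 / 100000 : ℝ) := by
    intro n hn
    have h0 : 0 ≤ X ^ (62475 / 100000 : ℝ) := by positivity
    have h03 : 0 ≤ C3 * X ^ (62475 / 100000 : ℝ) := by positivity
    have h05 : 0 ≤ C5 * X ^ (62475 / 100000 : ℝ) := by positivity
    have h1 : X ^ (1 / 2 : ℝ) * ((2 ^ n : ℕ) : ℝ) ^ (-(3 / 2) : ℝ) * S (2 ^ n) ≤
        (8 * C3 + 8 * C5 + 41) * X ^ (62475 / 100000 : ℝ) := by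
      simp only [hS]
      split_ifs with h h'
      · have := blockA40 hX (hK1 n) h
        linarith
      · have := blockB40 hC5 hX (hK1 n) h'
        linarith
      · push Not at h'
        have := blockC40 hC3 hX (hK1 n) h'.le
        linarith
    have h2 : 1 ≤ X ^ (62475 / 100000 : ℝ) := one_le_rpow hX (by norm_num)
    calc B n ≤ C2 * ((8 * C3 + 8 * C5 + 41) * X ^ (62475 / 100000 : ℝ) + X ^ (62475 / 100000 : ℝ)) :=
          mul_le_mul_of_nonneg_left (by linarith) hC2.le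
      _ = C2 * (8 * C3 + 8 * C5 + 42) * X ^ (62475 / 100000 : ℝ) := by ring
  have hsum : ∑ n ∈ Finset.range n1, B n ≤
      40001 * (C2 * (8 * C3 + 8 * C5 + 42)) * X ^ (6248 / 10000 : ℝ) := by
    refine (Finset.sum_le_sum hBle).trans ?_
    rw [Finset.sum_const, Finset.card_range, nsmul_eq_mul]
    have h3 : X ^ (1 / 20000 : ℝ) * X ^ (62475 / 100000 : ℝ) = X ^ (6248 / 10000 : ℝ) := by
      rw [← rpow_add hX0]
      norm_num
    calc (n1 : ℝ) * (C2 * (8 * C3 + 8 * C5 + 42) * X ^ (62475 / 100000 : ℝ)) ≤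
        40001 * X ^ (1 / 20000 : ℝ) * (C2 * (8 * C3 + 8 * C5 + 42) * X ^ (62475 / 100000 : ℝ)) :=
          mul_le_mul_of_nonneg_right hn1c (by positivity)
      _ = 40001 * (C2 * (8 * C3 + 8 * C5 + 42)) * (X ^ (1 / 20000 : ℝ) * X ^ (62475 / 100000 : ℝ)) := by ring
      _ = _ := by rw [h3]
  have hexp : (X ^ (3752 / 10000 + 1 / 100000 : ℝ)) ≤ X ^ (376 / 1000 : ℝ) :=
    rpow_le_rpow_of_exponent_le hX (by norm_num)
  have hq : X ^ (1 / 4 + 1 / 1000000 : ℝ) ≤ X ^ (2588 / 10000 : ℝ) :=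
    rpow_le_rpow_of_exponent_le hX (by norm_num)
  have hmain := hblocks X hXR1 n1 hn1a B (by
    intro n hn r hr c'
    refine hft X r (S (2 ^ n)) (2 ^ n) hX hr.1 hr.2 Nat.one_le_two_pow (hSnn _) ?_ c'
    intro r' hr' i hi c''
    have hK : (((2 ^ n : ℕ) : ℝ)) ≤ X ^ (3752 / 10000 + 1 / 100000 : ℝ) := by
      push_cast
      exact hn1b n hn
    simp only [hS]
    split_ifs with h h'
    · exact sqa_triv Nat.one_le_two_pow c''
    · push Not at h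
      obtain ⟨h1, h2⟩ := hlarge X _ hXX1 (hK1 n) h.le h'
      exact sqa_oct Nat.one_le_two_pow
        (fun c => hsml X r' (2 ^ n) hX hr'.1 hr'.2 Nat.one_le_two_pow h1 h2 i hi c) c''
    · push Not at h'
      exact sqa_oct Nat.one_le_two_pow
        (fun c => hoct X r' (2 ^ n) hX hr'.1 hr'.2 (hq.trans h'.le) (hK.trans hexp) i hi c) c'')
    X ⟨le_rfl, by linarith⟩ c
  refine hmain.trans ?_
  have h5 : X ^ (1 - 3752 / 10000 : ℝ) = X ^ (6248 / 10000 : ℝ) := by norm_num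
  have h6 : C1 * X ^ (1 - 3752 / 10000 : ℝ) ≤ |C1| * X ^ (6248 / 10000 : ℝ) := by
    rw [h5]
    exact mul_le_mul_of_nonneg_right (le_abs_self C1) (by positivity)
  have h7 : 0 ≤ |C4| * X ^ (6248 / 10000 : ℝ) := by positivity
  calc C1 * X ^ (1 - 3752 / 10000 : ℝ) + ∑ n ∈ Finset.range n1, B n ≤
      |C1| * X ^ (6248 / 10000 : ℝ) + 40001 * (C2 * (8 * C3 + 8 * C5 + 42)) * X ^ (6248 / 10000 : ℝ) :=
        add_le_add h6 hsum
    _ ≤ _ := by linarith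

end Pool.Agent.Helper89.VD
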