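import Mathlib
import Pool.Agent.Helper22.GC.VdC

/-!
# Project VD (MP_fb29e9_nt, exponent below 5/8). V1: iterated differences

`df f [u₁, ..., u_r] x` is the iterated difference with the natural shifts `u_i`.
PROOFS. `df_shift`, `df_cons`: induction on `l` / `rfl`. `df_hasDeriv`: induction on the list (for all `x`): `df (F i) (u :: l) y = df (F i) l (y + u) - df (F i) l y`, derivative
`df (F (i+1)) l (y + u) - df (F (i+1)) l y` (`HasDerivAt.comp_add_const`, `HasDerivAt.sub`), both points `z` satisfy `A ≤ z` and `z + l.sum ≤ B`.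
`df_mean`: induction on the list. `[]`: `ξ = x`, `prod = 1`. `u :: l`: if `u = 0` both sides are `0` (`ξ = x`). If `u > 0`: mean value theorem (`exists_hasDerivAt_eq_slope`) for `G = df (F i) l` on `[x, x + u]`, whose derivative is
`df (F (i+1)) l` (`df_hasDeriv`): `df (F i) (u :: l) x = u * df (F (i+1)) l y`, `x < y < x + u`, and the induction hypothesis for `F (i+1)` at `y`: `df (F (i+1)) l y = l.prod * F (i + 1 + l.length) ξ`, `y ≤ ξ ≤ y + l.sum`.
(Template: `E_sub` in Pool/Agent/Helper79/EG/Diff.lean.)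
-/

set_option autoImplicit false

open Set Real

namespace Pool.Agent.Helper89.VD

/-- iterated difference -/
noncomputable def df (f : ℝ → ℝ) : List ℕ → ℝ → ℝ
  | [], x => f x
  | (u :: l), x => df f l (x + u) - df f l x

theorem df_cons (f : ℝ → ℝ) (u : ℕ) (l : List ℕ) : df f (u :: l) = df (df f l) [u] := by
  funext x
  rfl

theorem df_shift (f : ℝ → ℝ) (a : ℝ) (l : List ℕ) (x : ℝ) : df (fun y => f (y + a)) l x = df f l (x + a) := by
  induction l generalizing x with
  | nil => rfl
  | cons u l ih =>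
    have h1 := ih (x + u)
    have h2 := ih x
    have e : x + (u : ℝ) + a = x + a + u := by ring
    simp only [df]
    rw [h1, h2, e]

theorem df_hasDeriv {F : ℕ → ℝ → ℝ} {A B : ℝ} (i : ℕ) (hF : ∀ x ∈ Icc A B, HasDerivAt (F i) (F (i + 1) x) x) (l : List ℕ) (x : ℝ)
    (hx : A ≤ x) (hx' : x + (l.sum : ℕ) ≤ B) : HasDerivAt (df (F i) l) (df (F (i + 1)) l x) x := by
  induction l generalizing x with
  | nil =>
    have h0 : (([] : List ℕ).sum : ℕ) = 0 := rfl
    rw [h0, Nat.cast_zero, add_zero] at hx'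
    exact hF x ⟨hx, hx'⟩
  | cons u l ih =>
    rw [List.sum_cons, Nat.cast_add] at hx'
    have hu : (0 : ℝ) ≤ u := Nat.cast_nonneg u
    have h1 := ih (x + u) (by linarith) (by linarith)
    have h2 := ih x hx (by linarith)
    have h3 : HasDerivAt (fun y => df (F i) l (y + u)) (df (F (i + 1)) l (x + u)) x :=
      HasDerivAt.comp_add_const x (u : ℝ) h1
    exact h3.sub h2

theorem df_mean {F : ℕ → ℝ → ℝ} {A B : ℝ} (l : List ℕ) (i : ℕ)
    (hF : ∀ j, i ≤ j → j < i + l.length → ∀ x ∈ Icc A B, HasDerivAt (F j) (F (j + 1) x) x) (x : ℝ)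
    (hx : A ≤ x) (hx' : x + (l.sum : ℕ) ≤ B) :
    ∃ ξ, x ≤ ξ ∧ ξ ≤ x + (l.sum : ℕ) ∧ df (F i) l x = (l.prod : ℕ) * F (i + l.length) ξ := by
  induction l generalizing i x with
  | nil =>
    refine ⟨x, le_refl _, ?_, ?_⟩
    · have h0 : (0 : ℝ) ≤ ((([] : List ℕ).sum : ℕ) : ℝ) := Nat.cast_nonneg _
      linarith
    · have h0 : (([] : List ℕ).prod : ℕ) = 1 := rfl
      have h1 : i + ([] : List ℕ).length = i := rfl
      rw [h0, h1, Nat.cast_one, one_mul]
      rfl
  | cons u l ih =>
    have hlen : (u :: l).length = l.length + 1 := rfl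
    rw [List.sum_cons, Nat.cast_add] at hx'
    have hs0 : (0 : ℝ) ≤ ((l.sum : ℕ) : ℝ) := Nat.cast_nonneg _
    rcases Nat.eq_zero_or_pos u with hu | hu
    · refine ⟨x, le_refl _, ?_, ?_⟩
      · have h0 : (0 : ℝ) ≤ (((u :: l).sum : ℕ) : ℝ) := Nat.cast_nonneg _
        linarith
      · subst hu
        have h1 : (((0 : ℕ) :: l).prod : ℕ) = 0 := by
          rw [List.prod_cons, zero_mul]
        rw [h1, Nat.cast_zero, zero_mul]
        show df (F i) l (x + ((0 : ℕ) : ℝ)) - df (F i) l x = 0
        rw [Nat.cast_zero, add_zero, sub_self]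
    · have hu' : (0 : ℝ) < u := by exact_mod_cast hu
      have hFi : ∀ x ∈ Icc A B, HasDerivAt (F i) (F (i + 1) x) x :=
        hF i (le_refl _) (by rw [hlen]; omega)
      have hd : ∀ z : ℝ, x ≤ z → z ≤ x + u → HasDerivAt (df (F i) l) (df (F (i + 1)) l z) z :=
        fun z h1 h2 => df_hasDeriv i hFi l z (by linarith) (by linarith)
      obtain ⟨y, hy, hy2⟩ := exists_hasDerivAt_eq_slope (df (F i) l) (df (F (i + 1)) l)
        (show x < x + u by linarith)
        (fun z hz => (hd z hz.1 hz.2).continuousAt.continuousWithinAt)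
        (fun z hz => hd z hz.1.le hz.2.le)
      have hmain : df (F i) (u :: l) x = u * df (F (i + 1)) l y := by
        have h1 : x + (u : ℝ) - x = u := by ring
        rw [h1] at hy2
        rw [hy2]
        show df (F i) l (x + u) - df (F i) l x = _
        field_simp
      obtain ⟨ξ, h1, h2, h3⟩ := ih (i + 1)
        (fun j hj hj' => hF j (by omega) (by rw [hlen]; omega)) y
        (by linarith [hy.1]) (by linarith [hy.2])
      refine ⟨ξ, by linarith [hy.1], ?_, ?_⟩
      · rw [List.sum_cons, Nat.cast_add]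
        linarith [hy.2]
      · have h4 : i + (u :: l).length = i + 1 + l.length := by rw [hlen]; omega
        rw [hmain, h3, h4, List.prod_cons, Nat.cast_mul, mul_assoc]

end Pool.Agent.Helper89.VD
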