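import Pool.Agent.Helper89.VD.V1
import Pool.Agent.Helper79.EG.VdC

/-!
# VD-V2: four Weyl steps

`ee` is `Pool.Agent.Helper22.GC.ee` (`exp (2 π i t)`).
PROOF of `weyl_step`. `EG.VdC.vdc_nat` (Pool/Agent/Helper79/EG/VdC.lean; it is for `∑ n ∈ Icc 1 M`: use the phase `fun n => f (n - 1)` or reindex) with all `a n = 1` and `H = D`: for `1 ≤ M ≤ N`
`D ‖S_M‖² ≤ (M + D) (M + 2 ∑_{u ∈ Ico 1 D} ‖∑_{n < M, n + u < M} ee (f (n + u) - f n)‖)`; the inner sum is the sum over `n ∈ range (M - u)` (zero if `u ≥ M`), so `≤ T`; `M + D ≤ 2N`, `M ≤ N`: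
`D ‖S_M‖² ≤ 2N (N + 2 D T)`, so `‖S_M‖² ≤ 2N²/D + 4NT`. (`df f [u] n = f (n + u) - f n`.) `M = 0` is trivial.
PROOF of `weyl4`. Four times `weyl_step` (for `df f [u₃, u₂, u₁]` with the shifts `u₄ < 2^(8m)`, for `df f [u₂, u₁]` with the shifts `u₃ < 2^(4m)`, ...; `df (df f l) [v] = df f (v :: l)` is `df_cons`; the shifts are at most `N`).
Put `τ = T/N`, `s₄, s₃, s₂, s₁` the bounds divided by `N`: `s₄² ≤ 2/2^(8m) + 4τ`, `s₃² ≤ 2/2^(4m) + 4 s₄`, `s₂² ≤ 2/2^(2m) + 4 s₃`, `s₁² ≤ 2/2^m + 4 s₂`. By `√(a + b) ≤ √a + √b`: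
`s₄ ≤ 1.42 · 2^(-4m) + 2 τ^(1/2)`, `s₃ ≤ 1.42 · 2^(-2m) + 2√s₄ ≤ 3.9 · 2^(-2m) + 2.9 τ^(1/4)`, `s₂ ≤ 1.42 · 2^(-m) + 2√s₃ ≤ 5.4 · 2^(-m) + 3.5 τ^(1/8)`, `s₁ ≤ 1.42 · 2^(-m/2) + 2√s₂ ≤ 6.1 · 2^(-m/2) + 3.8 τ^(1/16)`.
If `N = 0` everything is `0` (`2^(8m) ≤ N` excludes it). A convenient way to avoid real powers: put `x = 2^(-m/2)`, `y = τ^(1/16)`, so that `2^(-m) = x²`, ..., `2^(-8m) = x^16`, `τ = y^16`, and `√(2 x^16 + 4 y^16) ≤ 2 x^8 + 2 y^8` etc. (`a² + b² ≤ (a+b)²`).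
-/

set_option autoImplicit false

open Set Real
open Pool.Agent.Helper22.GC (ee ee_add norm_ee conj_ee)

namespace Pool.Agent.Helper89.VD

private theorem sum_Icc45 (g : ℕ → ℂ) (M : ℕ) :
    ∑ n ∈ Finset.Icc 1 M, g n = ∑ n ∈ Finset.range M, g (n + 1) := by
  induction M with
  | zero => simp
  | succ M ih => rw [Finset.sum_Icc_succ_top (by omega), ih, Finset.sum_range_succ]

theorem weyl_step {f : ℝ → ℝ} {N D : ℕ} {T : ℝ} (hD : 1 ≤ D) (hDN : D ≤ N) (hT : 0 ≤ T)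
    (h : ∀ u : ℕ, 1 ≤ u → u < D → ∀ M ≤ N, ‖∑ n ∈ Finset.range M, ee (df f [u] n)‖ ≤ T) :
    ∀ M ≤ N, ‖∑ n ∈ Finset.range M, ee (f n)‖ ≤ √(2 * (N : ℝ) ^ 2 / D + 4 * N * T) := by
  intro M hM
  obtain ⟨f', hf'⟩ : ∃ f' : ℕ → ℝ, ∀ n, f' n = f ((n : ℝ) - 1) := ⟨_, fun _ => rfl⟩
  have hf1 : ∀ n : ℕ, f' (n + 1) = f n := by
    intro n
    rw [hf']
    congr 1
    push_cast
    ring
  have h1 := EG.VdC.vdc_nat (fun _ => 1) (fun _ => by simp) f' M D hD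
  have h2 : ∑ n ∈ Finset.Icc 1 M, (1 : ℂ) * ee (f' n) = ∑ n ∈ Finset.range M, ee (f n) := by
    rw [sum_Icc45]
    refine Finset.sum_congr rfl fun n _ => ?_
    rw [one_mul, hf1]
  have h3 : ∀ u ∈ Finset.Ico 1 D, ‖∑ n ∈ Finset.Icc 1 M, (if n + u ≤ M then
      (1 : ℂ) * (starRingEnd ℂ) 1 else 0) * ee (f' (n + u) - f' n)‖ ≤ T := by
    intro u hu
    rw [Finset.mem_Ico] at hu
    have h4 : ∑ n ∈ Finset.Icc 1 M, (if n + u ≤ M then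
        (1 : ℂ) * (starRingEnd ℂ) 1 else 0) * ee (f' (n + u) - f' n) =
        ∑ n ∈ Finset.range (M - u), ee (df f [u] n) := by
      rw [sum_Icc45]
      symm
      refine Finset.sum_subset_zero_on_sdiff (Finset.range_mono (Nat.sub_le M u)) ?_ ?_
      · intro n hn
        rw [Finset.mem_sdiff, Finset.mem_range, Finset.mem_range] at hn
        rw [if_neg (by omega), zero_mul]
      · intro n hn
        rw [Finset.mem_range] at hn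
        rw [if_pos (by omega), map_one, one_mul, one_mul, hf1,
          show n + 1 + u = n + u + 1 by ring, hf1]
        change ee (f ((n : ℝ) + u) - f n) = _
        rw [Nat.cast_add]
    rw [h4]
    exact h u hu.1 hu.2 _ (by omega)
  rw [h2] at h1
  have h5 : ∑ u ∈ Finset.Ico 1 D, ‖∑ n ∈ Finset.Icc 1 M, (if n + u ≤ M then
      (1 : ℂ) * (starRingEnd ℂ) 1 else 0) * ee (f' (n + u) - f' n)‖ ≤ D * T := by
    refine (Finset.sum_le_sum h3).trans ?_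
    rw [Finset.sum_const, Nat.card_Ico, nsmul_eq_mul]
    refine mul_le_mul_of_nonneg_right ?_ hT
    exact_mod_cast Nat.sub_le D 1
  have hD0 : (0 : ℝ) < D := by exact_mod_cast hD
  have hMN : (M : ℝ) ≤ N := by exact_mod_cast hM
  have hDN' : (D : ℝ) ≤ N := by exact_mod_cast hDN
  have hM0 : (0 : ℝ) ≤ M := Nat.cast_nonneg M
  have h6 : (D : ℝ) * ‖∑ n ∈ Finset.range M, ee (f n)‖ ^ 2 ≤
      (2 * N) * (N + 2 * (D * T)) := by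
    refine h1.trans ?_
    refine mul_le_mul (by linarith) (by linarith) ?_ (by linarith)
    have : 0 ≤ ∑ u ∈ Finset.Ico 1 D, ‖∑ n ∈ Finset.Icc 1 M, (if n + u ≤ M then
      (1 : ℂ) * (starRingEnd ℂ) 1 else 0) * ee (f' (n + u) - f' n)‖ :=
      Finset.sum_nonneg fun _ _ => norm_nonneg _
    linarith
  refine Real.le_sqrt_of_sq_le ?_
  have h7 : ‖∑ n ∈ Finset.range M, ee (f n)‖ ^ 2 ≤ (2 * N) * (N + 2 * (D * T)) / D := by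
    rw [le_div_iff₀ hD0]
    linarith
  refine h7.trans (le_of_eq ?_)
  field_simp
  ring

/-- one step of the estimates in `weyl4` -/
private theorem sqrt_step45 {N T p q D c c' : ℝ} (hN : 0 ≤ N) (hp : 0 ≤ p) (hq : 0 ≤ q)
    (hc : 0 ≤ c) (hD : D⁻¹ = p ^ 2) (hT : T ≤ N * (c' * (p ^ 2 + q ^ 2)))
    (hcc : 2 + 4 * c' ≤ c ^ 2) : √(2 * N ^ 2 / D + 4 * N * T) ≤ N * (c * (p + q)) := by
  rw [Real.sqrt_le_iff]
  refine ⟨by positivity, ?_⟩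
  rw [div_eq_mul_inv, hD]
  have h1 : 4 * N * T ≤ 4 * N * (N * (c' * (p ^ 2 + q ^ 2))) :=
    mul_le_mul_of_nonneg_left hT (by positivity)
  have h2 : 2 * N ^ 2 * p ^ 2 + 4 * N * (N * (c' * (p ^ 2 + q ^ 2))) ≤
      N ^ 2 * ((2 + 4 * c') * (p ^ 2 + q ^ 2)) := by
    have : 0 ≤ N ^ 2 * q ^ 2 := by positivity
    nlinarith
  have h3 : (2 + 4 * c') * (p ^ 2 + q ^ 2) ≤ c ^ 2 * (p + q) ^ 2 := by
    refine mul_le_mul hcc ?_ (by positivity) (by positivity)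
    nlinarith [mul_nonneg hp hq]
  have h4 : N ^ 2 * ((2 + 4 * c') * (p ^ 2 + q ^ 2)) ≤ N ^ 2 * (c ^ 2 * (p + q) ^ 2) :=
    mul_le_mul_of_nonneg_left h3 (by positivity)
  have h5 : (N * (c * (p + q))) ^ 2 = N ^ 2 * (c ^ 2 * (p + q) ^ 2) := by ring
  rw [h5]
  linarith

theorem weyl4 {f : ℝ → ℝ} {N m : ℕ} {T : ℝ} (hN : 2 ^ (8 * m) ≤ N) (hT : 0 ≤ T)
    (h : ∀ u₁ u₂ u₃ u₄ : ℕ, 1 ≤ u₁ → u₁ < 2 ^ m → 1 ≤ u₂ → u₂ < 2 ^ (2 * m) → 1 ≤ u₃ → u₃ < 2 ^ (4 * m) → 1 ≤ u₄ → u₄ < 2 ^ (8 * m) →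
      ∀ M ≤ N, ‖∑ n ∈ Finset.range M, ee (df f [u₄, u₃, u₂, u₁] n)‖ ≤ T) :
    ∀ M ≤ N, ‖∑ n ∈ Finset.range M, ee (f n)‖ ≤ 8 * N * ((2 : ℝ) ^ (-(m : ℝ) / 2) + (T / N) ^ (1 / 16 : ℝ)) := by
  have hp : ∀ k, k ≤ 8 * m → 2 ^ k ≤ N := fun k hk =>
    (Nat.pow_le_pow_right (by norm_num) hk).trans hN
  have hN1 : 1 ≤ N := hp 0 (Nat.zero_le _)
  have hN0 : (0 : ℝ) < N := by exact_mod_cast hN1
  obtain ⟨x, hx⟩ : ∃ x : ℝ, x = (2 : ℝ) ^ (-(m : ℝ) / 2) := ⟨_, rfl⟩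
  obtain ⟨y, hy⟩ : ∃ y : ℝ, y = (T / N) ^ (1 / 16 : ℝ) := ⟨_, rfl⟩
  have hx0 : 0 ≤ x := by
    rw [hx]
    positivity
  have hy0 : 0 ≤ y := by
    rw [hy]
    positivity
  have hx2 : x ^ 2 = (((2 ^ m : ℕ) : ℝ))⁻¹ := by
    rw [hx, ← Real.rpow_natCast, ← Real.rpow_mul (by norm_num)]
    have e : -(m : ℝ) / 2 * ((2 : ℕ) : ℝ) = -(m : ℝ) := by
      push_cast
      ring
    rw [e, Real.rpow_neg (by norm_num), Real.rpow_natCast]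
    push_cast
    rfl
  have hx4 : (x ^ 2) ^ 2 = (((2 ^ (2 * m) : ℕ) : ℝ))⁻¹ := by
    rw [hx2, inv_pow]
    push_cast
    rw [← pow_mul, mul_comm 2 m]
  have hx8 : (x ^ 4) ^ 2 = (((2 ^ (4 * m) : ℕ) : ℝ))⁻¹ := by
    have e : (x ^ 4) ^ 2 = (x ^ 2) ^ 4 := by ring
    rw [e, hx2, inv_pow]
    push_cast
    rw [← pow_mul, mul_comm 4 m]
  have hx16 : (x ^ 8) ^ 2 = (((2 ^ (8 * m) : ℕ) : ℝ))⁻¹ := by
    have e : (x ^ 8) ^ 2 = (x ^ 2) ^ 8 := by ring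
    rw [e, hx2, inv_pow]
    push_cast
    rw [← pow_mul, mul_comm 8 m]
  have hy16 : y ^ 16 = T / N := by
    rw [hy, ← Real.rpow_natCast, ← Real.rpow_mul (by positivity)]
    norm_num
  have hT16 : T = N * y ^ 16 := by
    rw [hy16]
    field_simp
  -- first step
  obtain ⟨T4, hT4⟩ : ∃ T4 : ℝ, T4 = √(2 * (N : ℝ) ^ 2 / ((2 ^ (8 * m) : ℕ) : ℝ) + 4 * N * T) :=
    ⟨_, rfl⟩
  have s4 : ∀ u₁ u₂ u₃ : ℕ, 1 ≤ u₁ → u₁ < 2 ^ m → 1 ≤ u₂ → u₂ < 2 ^ (2 * m) → 1 ≤ u₃ →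
      u₃ < 2 ^ (4 * m) → ∀ M ≤ N, ‖∑ n ∈ Finset.range M, ee (df f [u₃, u₂, u₁] n)‖ ≤ T4 := by
    intro u₁ u₂ u₃ a1 b1 a2 b2 a3 b3
    rw [hT4]
    refine weyl_step Nat.one_le_two_pow (hp _ le_rfl) hT fun u a4 b4 => ?_
    rw [← df_cons]
    exact h u₁ u₂ u₃ u a1 b1 a2 b2 a3 b3 a4 b4
  have e4 : T4 ≤ N * ((5 / 2) * (x ^ 8 + y ^ 8)) := by
    rw [hT4]
    refine sqrt_step45 (c' := 1) hN0.le (by positivity) (by positivity) (by norm_num)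
      hx16.symm ?_ (by norm_num)
    have e5 : (y ^ 8) ^ 2 = y ^ 16 := by ring
    rw [e5, one_mul, mul_add, hT16]
    have e6 : 0 ≤ (N : ℝ) * (x ^ 8) ^ 2 := by positivity
    linarith
  have p4 : 0 ≤ T4 := by
    rw [hT4]
    exact Real.sqrt_nonneg _
  -- second step
  obtain ⟨T3, hT3⟩ : ∃ T3 : ℝ, T3 = √(2 * (N : ℝ) ^ 2 / ((2 ^ (4 * m) : ℕ) : ℝ) + 4 * N * T4) :=
    ⟨_, rfl⟩
  have s3 : ∀ u₁ u₂ : ℕ, 1 ≤ u₁ → u₁ < 2 ^ m → 1 ≤ u₂ → u₂ < 2 ^ (2 * m) →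
      ∀ M ≤ N, ‖∑ n ∈ Finset.range M, ee (df f [u₂, u₁] n)‖ ≤ T3 := by
    intro u₁ u₂ a1 b1 a2 b2
    rw [hT3]
    refine weyl_step Nat.one_le_two_pow (hp _ (by omega)) p4 fun u a3 b3 => ?_
    rw [← df_cons]
    exact s4 u₁ u₂ u a1 b1 a2 b2 a3 b3
  have e3 : T3 ≤ N * ((7 / 2) * (x ^ 4 + y ^ 4)) := by
    rw [hT3]
    refine sqrt_step45 (c' := 5 / 2) hN0.le (by positivity) (by positivity) (by norm_num)
      hx8.symm ?_ (by norm_num)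
    refine e4.trans (le_of_eq ?_)
    ring
  have p3 : 0 ≤ T3 := by
    rw [hT3]
    exact Real.sqrt_nonneg _
  -- third step
  obtain ⟨T2, hT2⟩ : ∃ T2 : ℝ, T2 = √(2 * (N : ℝ) ^ 2 / ((2 ^ (2 * m) : ℕ) : ℝ) + 4 * N * T3) :=
    ⟨_, rfl⟩
  have s2 : ∀ u₁ : ℕ, 1 ≤ u₁ → u₁ < 2 ^ m →
      ∀ M ≤ N, ‖∑ n ∈ Finset.range M, ee (df f [u₁] n)‖ ≤ T2 := by
    intro u₁ a1 b1
    rw [hT2]
    refine weyl_step Nat.one_le_two_pow (hp _ (by omega)) p3 fun u a2 b2 => ?_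
    rw [← df_cons]
    exact s3 u₁ u a1 b1 a2 b2
  have e2 : T2 ≤ N * (4 * (x ^ 2 + y ^ 2)) := by
    rw [hT2]
    refine sqrt_step45 (c' := 7 / 2) hN0.le (by positivity) (by positivity) (by norm_num)
      hx4.symm ?_ (by norm_num)
    refine e3.trans (le_of_eq ?_)
    ring
  have p2 : 0 ≤ T2 := by
    rw [hT2]
    exact Real.sqrt_nonneg _
  -- last step
  intro M hM
  have s1 := weyl_step (f := f) Nat.one_le_two_pow (hp m (by omega)) p2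
    (fun u a1 b1 => s2 u a1 b1) M hM
  have e1 : √(2 * (N : ℝ) ^ 2 / ((2 ^ m : ℕ) : ℝ) + 4 * N * T2) ≤ N * (5 * (x + y)) :=
    sqrt_step45 (c' := 4) hN0.le hx0 hy0 (by norm_num) hx2.symm e2 (by norm_num)
  rw [← hx, ← hy]
  refine (s1.trans e1).trans ?_
  have : 0 ≤ (N : ℝ) * (x + y) := by positivity
  linarith

end Pool.Agent.Helper89.VD
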