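import Mathlib

/-!
# VD-V3: the first six derivatives of √(h² + x²)

PROOFS. `sd_deriv`: with `s = √(h² + x²)`, `s > 0`, `s' = x/s`, `s² = h² + x²`: `(x/s)' = h²/s³`, `(h²/s³)' = -3h²x/s⁵`, `(-3h²x/s⁵)' = h²(12x² - 3h²)/s⁷`, `(...)' = h²x(45h² - 60x²)/s⁹`,
`(...)' = 45h²(h⁴ - 12h²x² + 8x⁴)/s¹¹`. (`HasDerivAt.sqrt`, `HasDerivAt.div`, `HasDerivAt.pow`, then `field_simp` and `s² = h² + x²`; e.g. write the claimed equality of the derivatives as a polynomial identity in `x, h, s` modulo `s² = h² + x²`,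
`linear_combination`.)
`y0_val`: `t₀ = (3 - √7)/4` is a root of `8t² - 12t + 1`, `2.645 ≤ √7 ≤ 2.646`, so `0.0885 ≤ t₀ ≤ 0.08875`, `0.297 ≤ y₀ ≤ 0.298`.
`sd_up`: `0 ≤ x ≤ 11h/10`: `|h⁴ - 12h²x² + 8x⁴| ≤ 28 h⁴`, `s ≥ h`: `|sd h 6 x| ≤ 45 · 28 h⁶/h¹¹ ≤ 2000/h⁵`.
`sd_left`, `sd_right`: `h⁴ - 12h²x² + 8x⁴ = 8 (x² - t₀h²)(x² - t₁h²)`, `t₁ = (3 + √7)/4 ≥ 1.41`, `x² ≤ 1.21h²`, so `t₁h² - x² ≥ h²/5`; `x² - t₀h² = (x - y₀h)(x + y₀h)`. Left: `x ≤ (y₀ - η)h`: `(y₀h - x)(x + y₀h) ≥ ηh · 0.29h`;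
right: `(x - y₀h)(x + y₀h) ≥ ηh · 0.29h`. `s¹¹ ≤ (2.21)^(11/2) h¹¹ ≤ 80h¹¹` (`s² ≤ 2.21h²`, `s¹¹ = s¹⁰ s ≤ 2.21⁵ · 1.487 h¹¹`). So `|sd h 6 x| ≥ 45 h² · 8 · (h²/5)(0.29 η h²)/(80 h¹¹) ≥ η/(5 h⁵)` (45·8·0.29/(5·80) = 0.26).
-/

set_option autoImplicit false

open Set Real

namespace Pool.Agent.Helper89.VD

/-- the derivatives of `√(h² + x²)` (for the index at most `6`) -/
noncomputable def sd (h : ℝ) (i : ℕ) (x : ℝ) : ℝ :=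
  match i with
  | 0 => √(h ^ 2 + x ^ 2)
  | 1 => x / √(h ^ 2 + x ^ 2)
  | 2 => h ^ 2 / √(h ^ 2 + x ^ 2) ^ 3
  | 3 => -(3 * h ^ 2 * x) / √(h ^ 2 + x ^ 2) ^ 5
  | 4 => h ^ 2 * (12 * x ^ 2 - 3 * h ^ 2) / √(h ^ 2 + x ^ 2) ^ 7
  | 5 => h ^ 2 * x * (45 * h ^ 2 - 60 * x ^ 2) / √(h ^ 2 + x ^ 2) ^ 9
  | _ => 45 * h ^ 2 * (h ^ 4 - 12 * h ^ 2 * x ^ 2 + 8 * x ^ 4) / √(h ^ 2 + x ^ 2) ^ 11

/-- the zero of the sixth derivative -/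
noncomputable def y0 : ℝ := √((3 - √7) / 4)

private lemma sqd {h : ℝ} (hh : 0 < h) (x : ℝ) :
    HasDerivAt (fun y : ℝ => √(h ^ 2 + y ^ 2)) (x / √(h ^ 2 + x ^ 2)) x := by
  have hpos : 0 < h ^ 2 + x ^ 2 := by positivity
  have hs : 0 < √(h ^ 2 + x ^ 2) := Real.sqrt_pos.2 hpos
  have h2 : HasDerivAt (fun y : ℝ => h ^ 2 + y ^ 2) (2 * x) x :=
    ((hasDerivAt_pow 2 x).const_add (h ^ 2)).congr_deriv (by push_cast; ring)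
  refine (h2.sqrt hpos.ne').congr_deriv ?_
  field_simp

private lemma dq {h : ℝ} (hh : 0 < h) (n : ℕ) {N : ℝ → ℝ} {N' x : ℝ} (hN : HasDerivAt N N' x) :
    HasDerivAt (fun y : ℝ => N y / √(h ^ 2 + y ^ 2) ^ (n + 1))
      ((N' * (h ^ 2 + x ^ 2) - (n + 1) * x * N x) / √(h ^ 2 + x ^ 2) ^ (n + 3)) x := by
  have hpos : 0 < h ^ 2 + x ^ 2 := by positivity
  have hs : 0 < √(h ^ 2 + x ^ 2) := Real.sqrt_pos.2 hpos
  have hs2 : √(h ^ 2 + x ^ 2) ^ 2 = h ^ 2 + x ^ 2 := Real.sq_sqrt hpos.le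
  have h3 := hN.div ((sqd hh x).pow (n + 1)) (pow_ne_zero _ hs.ne')
  refine HasDerivAt.congr_deriv h3 ?_
  simp only [Pi.pow_apply, Nat.add_sub_cancel]
  obtain ⟨s, hs'⟩ : ∃ s, s = √(h ^ 2 + x ^ 2) := ⟨_, rfl⟩
  rw [← hs'] at hs hs2 ⊢
  rw [← hs2]
  push_cast
  field_simp
  ring

theorem sd_deriv {h : ℝ} (hh : 0 < h) (j : ℕ) (hj : j < 6) (x : ℝ) : HasDerivAt (sd h j) (sd h (j + 1) x) x := by
  have hN2 : HasDerivAt (fun y : ℝ => y) 1 x := hasDerivAt_id x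
  have hp2 : HasDerivAt (fun y : ℝ => y ^ 2) (2 * x) x :=
    (hasDerivAt_pow 2 x).congr_deriv (by push_cast; ring)
  interval_cases j
  · exact sqd hh x
  · have h1 := dq hh 0 hN2
    simp only [zero_add, pow_one] at h1
    refine HasDerivAt.congr_deriv h1 ?_
    change _ = h ^ 2 / √(h ^ 2 + x ^ 2) ^ 3
    congr 1
    push_cast
    ring
  · have h1 := dq hh 2 (hasDerivAt_const x (h ^ 2))
    refine HasDerivAt.congr_deriv h1 ?_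
    change _ = -(3 * h ^ 2 * x) / √(h ^ 2 + x ^ 2) ^ 5
    congr 1
    push_cast
    ring
  · have h0 : HasDerivAt (fun y : ℝ => -(3 * h ^ 2 * y)) (-(3 * h ^ 2 * 1)) x := (hN2.const_mul (3 * h ^ 2)).neg
    have h1 := dq hh 4 h0
    refine HasDerivAt.congr_deriv h1 ?_
    change _ = h ^ 2 * (12 * x ^ 2 - 3 * h ^ 2) / √(h ^ 2 + x ^ 2) ^ 7
    congr 1
    push_cast
    ring
  · have h1 := dq hh 6 (((hp2.const_mul 12).sub_const (3 * h ^ 2)).const_mul (h ^ 2))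
    refine HasDerivAt.congr_deriv h1 ?_
    change _ = h ^ 2 * x * (45 * h ^ 2 - 60 * x ^ 2) / √(h ^ 2 + x ^ 2) ^ 9
    congr 1
    push_cast
    ring
  · have h0 : HasDerivAt (fun y : ℝ => h ^ 2 * y * (45 * h ^ 2 - 60 * y ^ 2))
        (h ^ 2 * 1 * (45 * h ^ 2 - 60 * x ^ 2) + h ^ 2 * x * -(60 * (2 * x))) x :=
      (hN2.const_mul (h ^ 2)).mul ((hp2.const_mul 60).const_sub (45 * h ^ 2))
    have h1 := dq hh 8 h0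
    refine HasDerivAt.congr_deriv h1 ?_
    change _ = 45 * h ^ 2 * (h ^ 4 - 12 * h ^ 2 * x ^ 2 + 8 * x ^ 4) / √(h ^ 2 + x ^ 2) ^ 11
    congr 1
    push_cast
    ring

theorem y0_val : 297 / 1000 ≤ y0 ∧ y0 ≤ 298 / 1000 ∧ 8 * y0 ^ 4 - 12 * y0 ^ 2 + 1 = 0 := by
  have hw0 : 0 ≤ √(7 : ℝ) := Real.sqrt_nonneg _
  have hw2 : √(7 : ℝ) ^ 2 = 7 := Real.sq_sqrt (by norm_num)
  have hw1 : (2645 / 1000 : ℝ) ≤ √7 := Real.le_sqrt_of_sq_le (by norm_num)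
  have hw3 : √(7 : ℝ) ≤ 2646 / 1000 := by
    rw [Real.sqrt_le_left (by norm_num)]
    norm_num
  have ht : 0 ≤ (3 - √(7 : ℝ)) / 4 := by linarith
  have hy2 : y0 ^ 2 = (3 - √(7 : ℝ)) / 4 := Real.sq_sqrt ht
  refine ⟨?_, ?_, ?_⟩
  · apply Real.le_sqrt_of_sq_le
    linarith
  · unfold y0
    rw [Real.sqrt_le_left (by norm_num)]
    linarith
  · have h4 : y0 ^ 4 = ((3 - √(7 : ℝ)) / 4) ^ 2 := by rw [← hy2]; ring
    rw [h4, hy2]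
    linear_combination (1 / 2) * hw2

/-- the polynomial in the sixth derivative -/
private lemma pfac {h x : ℝ} : h ^ 4 - 12 * h ^ 2 * x ^ 2 + 8 * x ^ 4 =
    8 * ((y0 * h - x) * (y0 * h + x)) * ((3 / 2 - y0 ^ 2) * h ^ 2 - x ^ 2) := by
  have h1 := y0_val.2.2
  linear_combination (h ^ 4) * h1

private lemma s_le {h x : ℝ} (hh : 0 < h) (hx : 0 ≤ x) (hx1 : x ≤ 11 / 10 * h) :
    √(h ^ 2 + x ^ 2) ≤ 3 / 2 * h := by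
  rw [Real.sqrt_le_left (by positivity)]
  nlinarith

private lemma s_ge {h x : ℝ} : h ≤ √(h ^ 2 + x ^ 2) := by
  apply Real.le_sqrt_of_sq_le
  nlinarith [sq_nonneg x]

private lemma s11 {h x : ℝ} (hh : 0 < h) (hx : 0 ≤ x) (hx1 : x ≤ 11 / 10 * h) :
    √(h ^ 2 + x ^ 2) ^ 11 ≤ 87 * h ^ 11 := by
  calc √(h ^ 2 + x ^ 2) ^ 11 ≤ (3 / 2 * h) ^ 11 := pow_le_pow_left₀ (Real.sqrt_nonneg _) (s_le hh hx hx1) 11
    _ = (3 / 2) ^ 11 * h ^ 11 := by ring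
    _ ≤ 87 * h ^ 11 := by
        apply mul_le_mul_of_nonneg_right _ (by positivity)
        norm_num

/-- lower bound for the quotient -/
private lemma quot {h x η Q : ℝ} (hh : 0 < h) (hη : 0 ≤ η) (hx : 0 ≤ x) (hx1 : x ≤ 11 / 10 * h)
    (hQ : 47 / 100 * η * h ^ 4 ≤ Q) : η / (5 * h ^ 5) ≤ 45 * h ^ 2 * Q / √(h ^ 2 + x ^ 2) ^ 11 := by
  have hs : 0 < √(h ^ 2 + x ^ 2) := lt_of_lt_of_le hh s_ge
  rw [div_le_div_iff₀ (by positivity) (by positivity)]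
  calc η * √(h ^ 2 + x ^ 2) ^ 11 ≤ η * (87 * h ^ 11) := mul_le_mul_of_nonneg_left (s11 hh hx hx1) hη
    _ ≤ 45 * h ^ 2 * (47 / 100 * η * h ^ 4) * (5 * h ^ 5) := by
        have h1 : 0 ≤ η * h ^ 11 := by positivity
        nlinarith
    _ ≤ 45 * h ^ 2 * Q * (5 * h ^ 5) := by gcongr

theorem sd_up {h x : ℝ} (hh : 0 < h) (hx : 0 ≤ x) (hx1 : x ≤ 11 / 10 * h) : |sd h 6 x| ≤ 2000 / h ^ 5 := by
  have hs : 0 < √(h ^ 2 + x ^ 2) := lt_of_lt_of_le hh s_ge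
  have hs11 : h ^ 11 ≤ √(h ^ 2 + x ^ 2) ^ 11 := pow_le_pow_left₀ hh.le s_ge 11
  change |45 * h ^ 2 * (h ^ 4 - 12 * h ^ 2 * x ^ 2 + 8 * x ^ 4) / √(h ^ 2 + x ^ 2) ^ 11| ≤ 2000 / h ^ 5
  have hx2 : x ^ 2 ≤ 121 / 100 * h ^ 2 := by nlinarith
  have hx20 : 0 ≤ x ^ 2 := sq_nonneg x
  have hP : |h ^ 4 - 12 * h ^ 2 * x ^ 2 + 8 * x ^ 4| ≤ 28 * h ^ 4 := by
    have e1 : x ^ 4 = (x ^ 2) ^ 2 := by ring
    have e2 : h ^ 4 = (h ^ 2) ^ 2 := by ring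
    have h2 : 0 < h ^ 2 := by positivity
    rw [e1, e2, abs_le]
    constructor <;> nlinarith
  rw [abs_div, abs_of_pos (pow_pos hs 11), abs_mul, abs_of_pos (by positivity : 0 < 45 * h ^ 2),
    div_le_div_iff₀ (pow_pos hs 11) (by positivity)]
  calc 45 * h ^ 2 * |h ^ 4 - 12 * h ^ 2 * x ^ 2 + 8 * x ^ 4| * h ^ 5 ≤ 45 * h ^ 2 * (28 * h ^ 4) * h ^ 5 := by gcongr
    _ = 1260 * h ^ 11 := by ring
    _ ≤ 2000 * h ^ 11 := by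
        have : 0 < h ^ 11 := by positivity
        linarith
    _ ≤ 2000 * √(h ^ 2 + x ^ 2) ^ 11 := by linarith

theorem sd_left {h x η : ℝ} (hh : 0 < h) (hη : 0 ≤ η) (hx : 0 ≤ x) (hx1 : x ≤ (y0 - η) * h) : η / (5 * h ^ 5) ≤ sd h 6 x := by
  obtain ⟨hy1, hy2, -⟩ := y0_val
  have hy0 : y0 ^ 2 ≤ 89 / 1000 := by nlinarith
  have hxy : x ≤ 298 / 1000 * h := by nlinarith [mul_nonneg hη hh.le]
  have hx1' : x ≤ 11 / 10 * h := by linarith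
  change η / (5 * h ^ 5) ≤ 45 * h ^ 2 * (h ^ 4 - 12 * h ^ 2 * x ^ 2 + 8 * x ^ 4) / √(h ^ 2 + x ^ 2) ^ 11
  apply quot hh hη hx hx1'
  rw [pfac]
  have h1 : η * h ≤ y0 * h - x := by linarith
  have h2 : 297 / 1000 * h ≤ y0 * h + x := by nlinarith
  have h3 : 2 / 10 * h ^ 2 ≤ (3 / 2 - y0 ^ 2) * h ^ 2 - x ^ 2 := by
    have h5 : x ^ 2 ≤ (298 / 1000 * h) ^ 2 := pow_le_pow_left₀ hx hxy 2
    nlinarith [sq_nonneg h]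
  have h0 : 0 ≤ η * h := mul_nonneg hη hh.le
  calc 47 / 100 * η * h ^ 4 ≤ 8 * ((η * h) * (297 / 1000 * h)) * (2 / 10 * h ^ 2) := by
        have : 0 ≤ η * h ^ 4 := by positivity
        nlinarith
    _ ≤ 8 * ((y0 * h - x) * (y0 * h + x)) * ((3 / 2 - y0 ^ 2) * h ^ 2 - x ^ 2) := by
        have h6 : 0 ≤ y0 * h - x := h0.trans h1
        have h7 : 0 ≤ y0 * h + x := le_trans (by positivity) h2
        have h8 : 0 ≤ 8 * ((y0 * h - x) * (y0 * h + x)) := by positivity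
        gcongr

theorem sd_right {h x η : ℝ} (hh : 0 < h) (hη : 0 ≤ η) (hx : (y0 + η) * h ≤ x) (hx1 : x ≤ 11 / 10 * h) :
    sd h 6 x ≤ -(η / (5 * h ^ 5)) := by
  obtain ⟨hy1, hy2, -⟩ := y0_val
  have hy0 : y0 ^ 2 ≤ 89 / 1000 := by nlinarith
  have hηh : 0 ≤ η * h := mul_nonneg hη hh.le
  have hx0 : 297 / 1000 * h ≤ x := by nlinarith
  have hx' : 0 ≤ x := by linarith
  change 45 * h ^ 2 * (h ^ 4 - 12 * h ^ 2 * x ^ 2 + 8 * x ^ 4) / √(h ^ 2 + x ^ 2) ^ 11 ≤ -(η / (5 * h ^ 5))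
  have key : η / (5 * h ^ 5) ≤ 45 * h ^ 2 * (-(h ^ 4 - 12 * h ^ 2 * x ^ 2 + 8 * x ^ 4)) / √(h ^ 2 + x ^ 2) ^ 11 := by
    apply quot hh hη hx' hx1
    rw [pfac]
    have h1 : η * h ≤ x - y0 * h := by linarith
    have h2 : 297 / 1000 * h ≤ y0 * h + x := by nlinarith
    have h3 : 2 / 10 * h ^ 2 ≤ (3 / 2 - y0 ^ 2) * h ^ 2 - x ^ 2 := by
      have h5 : x ^ 2 ≤ (11 / 10 * h) ^ 2 := pow_le_pow_left₀ hx' hx1 2
      nlinarith [sq_nonneg h]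
    calc 47 / 100 * η * h ^ 4 ≤ 8 * ((η * h) * (297 / 1000 * h)) * (2 / 10 * h ^ 2) := by
          have : 0 ≤ η * h ^ 4 := by positivity
          nlinarith
      _ ≤ 8 * ((x - y0 * h) * (y0 * h + x)) * ((3 / 2 - y0 ^ 2) * h ^ 2 - x ^ 2) := by
          have h6 : 0 ≤ x - y0 * h := hηh.trans h1
          have h7 : 0 ≤ y0 * h + x := le_trans (by positivity) h2
          have h8 : 0 ≤ 8 * ((x - y0 * h) * (y0 * h + x)) := by positivity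
          gcongr
      _ = _ := by ring
  have e : 45 * h ^ 2 * (-(h ^ 4 - 12 * h ^ 2 * x ^ 2 + 8 * x ^ 4)) / √(h ^ 2 + x ^ 2) ^ 11 =
      -(45 * h ^ 2 * (h ^ 4 - 12 * h ^ 2 * x ^ 2 + 8 * x ^ 4) / √(h ^ 2 + x ^ 2) ^ 11) := by ring
  rw [e] at key
  linarith

end Pool.Agent.Helper89.VD
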