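import Pool.Agent.Helper89.VD.V1
import Pool.Agent.Helper89.VD.V3

/-!
# VD-V4: the differenced sums

`phh h R α x = R √(h² + x²) + α x`.
PROOF of `left_sum`. Let `g n = df (phh h R α) l n`. `(g (n+2) - g (n+1)) - (g (n+1) - g n) = df (phh h R α) (1 :: 1 :: l) n` (unfold; `n + 1 + 1 = n + 2`), and by `df_mean` with `F 0 = phh`, `F 1 = R sd h 1 + α`, `F j = R sd h j` (`j ≥ 2`)
(`A = 0`, `B = 11h/10`; the list `1 :: 1 :: l` has length `6`, sum `l.sum + 2` and product `l.prod`) it is `l.prod R sd h 6 ξ` with `n ≤ ξ ≤ n + l.sum + 2 ≤ (y0 - η) h` for `n < b`. With `Λ = R/h⁵`: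
`η Λ l.prod/5 ≤` second difference `≤ 2000 Λ l.prod` (`sd_left`, `sd_up`). `second_deriv_test` (Helper22.GC.VdC) with `l = η Λ l.prod/5 ≤ 1/4` (`hP`, `η ≤ 1`), `V = 2000 Λ l.prod (b - a)`: the increment of the first difference from `p` to `q` is
the sum of at most `b - a ≤ h` second differences. So the sum is at most `5 (2000 Λ P h + 2)/√(η Λ P/5) ≤ 23000 h √(Λ P/η) + 23/√(η Λ)` (`P = l.prod ≥ 1`).
`right_sum`: the second differences of `g` are between `-2000 Λ P` and `-η Λ P/5`; apply the test to `-g` (`ee (-t) = conj (ee t)`: `conj_ee`), `b + l.sum + 2 ≤ 11h/10`.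
-/

set_option autoImplicit false

open Set Real
open Pool.Agent.Helper22.GC (ee ee_add norm_ee conj_ee)

namespace Pool.Agent.Helper89.VD

/-- the phase in one variable -/
noncomputable def phh (h R α x : ℝ) : ℝ := R * √(h ^ 2 + x ^ 2) + α * x

private theorem core86 {g : ℕ → ℝ} {a b : ℕ} {h Λ P η : ℝ} (hh : 1 ≤ h) (hΛ : 0 < Λ) (hP1 : 1 ≤ P)
    (hη : 0 < η) (hη1 : η ≤ 1) (hΛP : Λ * P ≤ 1) (hbh : (b : ℝ) ≤ 11 / 10 * h)
    (h1 : ∀ n, a ≤ n → n + 1 < b → η * (Λ * P) / 5 ≤ (g (n + 2) - g (n + 1)) - (g (n + 1) - g n))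
    (h2 : ∀ n, a ≤ n → n + 1 < b → (g (n + 2) - g (n + 1)) - (g (n + 1) - g n) ≤ 2000 * (Λ * P)) :
    ‖∑ n ∈ Finset.Ico a b, ee (g n)‖ ≤ 10 ^ 5 * (h * √(Λ * P / η) + 1 / √(η * Λ)) := by
  have hP0 : 0 < P := by linarith
  have hq : 0 < Λ * P := mul_pos hΛ hP0
  have hl : 0 < η * (Λ * P) / 5 := by positivity
  have hl' : η * (Λ * P) / 5 ≤ 1 / 4 := by
    have : η * (Λ * P) ≤ 1 * 1 := mul_le_mul hη1 hΛP hq.le (by norm_num)
    linarith
  have hV : ∀ p q, a ≤ p → p ≤ q → q < b →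
      (g (q + 1) - g q) - (g (p + 1) - g p) ≤ 2200 * (Λ * P) * h := by
    intro p q hap hpq hqb
    have key : ∀ q, p ≤ q → q < b →
        (g (q + 1) - g q) - (g (p + 1) - g p) ≤ 2000 * (Λ * P) * ((q : ℝ) - p) := by
      intro q hpq
      induction q, hpq using Nat.le_induction with
      | base =>
        intro _
        simp
      | succ q hq1 ih =>
        intro hqb
        have e1 := ih (by omega)
        have e2 := h2 q (by omega) (by omega)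
        have e3 : q + 1 + 1 = q + 2 := by omega
        rw [e3]
        push_cast
        nlinarith
    have h3 := key q hpq hqb
    have h4 : (q : ℝ) - p ≤ 11 / 10 * h := by
      have e1 : (q : ℝ) ≤ b := by exact_mod_cast hqb.le
      have e2 : (0 : ℝ) ≤ p := Nat.cast_nonneg p
      linarith
    have h5 : 2000 * (Λ * P) * ((q : ℝ) - p) ≤ 2000 * (Λ * P) * (11 / 10 * h) :=
      mul_le_mul_of_nonneg_left h4 (by positivity)
    calc _ ≤ _ := h3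
      _ ≤ _ := h5
      _ = _ := by ring
  have hmain := Pool.Agent.Helper22.GC.second_deriv_test (f := g) (a := a) (b := b) hl hl'
    (by positivity : 0 ≤ 2200 * (Λ * P) * h) h1 hV
  refine hmain.trans ?_
  have hs0 : 0 < √(η * (Λ * P) / 5) := Real.sqrt_pos.mpr hl
  have hsΛ : 0 < √(η * Λ) := Real.sqrt_pos.mpr (by positivity)
  rw [div_le_iff₀ hs0]
  -- √(Λ P/η) * √(η Λ P/5) ≥ Λ P * 0.44 ; √(η Λ P / 5) / √(η Λ) ≥ 0.44
  have e1 : 4 / 10 * (Λ * P) ≤ √(Λ * P / η) * √(η * (Λ * P) / 5) := by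
    rw [← Real.sqrt_mul (by positivity)]
    apply Real.le_sqrt_of_sq_le
    have : Λ * P / η * (η * (Λ * P) / 5) = (Λ * P) ^ 2 / 5 := by
      field_simp
    rw [this]
    nlinarith [sq_nonneg (Λ * P)]
  have e2 : 4 / 10 * √(η * Λ) ≤ √(η * (Λ * P) / 5) := by
    apply Real.le_sqrt_of_sq_le
    rw [mul_pow, Real.sq_sqrt (by positivity)]
    have : η * Λ * 1 ≤ η * Λ * P := mul_le_mul_of_nonneg_left hP1 (by positivity)
    nlinarith [mul_pos hη hΛ]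
  have e3 : 4 / 10 ≤ 1 / √(η * Λ) * √(η * (Λ * P) / 5) := by
    rw [one_div, inv_mul_eq_div, le_div_iff₀ hsΛ]
    exact e2
  have e4 : h * (4 / 10 * (Λ * P)) ≤ h * (√(Λ * P / η) * √(η * (Λ * P) / 5)) :=
    mul_le_mul_of_nonneg_left e1 (by linarith)
  have e5 : 10 ^ 5 * (h * √(Λ * P / η) + 1 / √(η * Λ)) * √(η * (Λ * P) / 5) =
      10 ^ 5 * (h * (√(Λ * P / η) * √(η * (Λ * P) / 5))) +
      10 ^ 5 * (1 / √(η * Λ) * √(η * (Λ * P) / 5)) := by ring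
  rw [e5]
  have e6 : 0 ≤ h * (Λ * P) := by positivity
  nlinarith [e3, e4, e6]

/-- the family of derivatives of `phh` -/
private noncomputable def FF86 (h R α : ℝ) (j : ℕ) (x : ℝ) : ℝ :=
  R * sd h j x + α * (match j with | 0 => x | 1 => 1 | _ => 0)

private theorem FF86_deriv {h R α : ℝ} (hh : 0 < h) (j : ℕ) (hj : j < 6) (x : ℝ) :
    HasDerivAt (FF86 h R α j) (FF86 h R α (j + 1) x) x := by
  have h1 := (sd_deriv hh j hj x).const_mul R
  match j, hj, h1 with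
  | 0, _, h1 =>
    have h2 := (hasDerivAt_id x).const_mul α
    exact h1.add h2
  | 1, _, h1 =>
    have h2 := (hasDerivAt_const x (1 : ℝ)).const_mul α
    exact h1.add h2
  | (j + 2), _, h1 =>
    have h2 := (hasDerivAt_const x (0 : ℝ)).const_mul α
    exact h1.add h2

private theorem mean86 {h R α : ℝ} (hh : 0 < h) {l : List ℕ} (hl : l.length = 4) (x : ℝ) :
    ∃ ξ, x ≤ ξ ∧ ξ ≤ x + ((l.sum : ℕ) : ℝ) + 2 ∧
      (df (phh h R α) l (x + 2) - df (phh h R α) l (x + 1)) -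
        (df (phh h R α) l (x + 1) - df (phh h R α) l x) = ((l.prod : ℕ) : ℝ) * (R * sd h 6 ξ) := by
  have hlen : (1 :: 1 :: l).length = 6 := by simp [hl]
  obtain ⟨ξ, h1, h2, h3⟩ := df_mean (F := FF86 h R α) (A := x) (B := x + (((1 :: 1 :: l).sum : ℕ) : ℝ))
    (1 :: 1 :: l) 0 (fun j _ hj y _ => FF86_deriv hh j (by rw [hlen] at hj; omega) y) x le_rfl le_rfl
  refine ⟨ξ, h1, ?_, ?_⟩
  · have : (((1 :: 1 :: l).sum : ℕ) : ℝ) = ((l.sum : ℕ) : ℝ) + 2 := by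
      rw [List.sum_cons, List.sum_cons]
      push_cast
      ring
    rw [this] at h2
    linarith
  · have e0 : FF86 h R α 0 = phh h R α := rfl
    have e1 : FF86 h R α (0 + (1 :: 1 :: l).length) ξ = R * sd h 6 ξ := by
      rw [hlen]
      show R * sd h 6 ξ + α * 0 = R * sd h 6 ξ
      ring
    have e2 : (1 :: 1 :: l).prod = l.prod := by
      rw [List.prod_cons, List.prod_cons, one_mul, one_mul]
    rw [e0, e1, e2] at h3
    rw [← h3]
    show _ = (df (phh h R α) l (x + ((1 : ℕ) : ℝ) + ((1 : ℕ) : ℝ)) - df (phh h R α) l (x + ((1 : ℕ) : ℝ))) -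
      (df (phh h R α) l (x + ((1 : ℕ) : ℝ)) - df (phh h R α) l x)
    have e3 : x + ((1 : ℕ) : ℝ) + ((1 : ℕ) : ℝ) = x + 2 := by push_cast; ring
    have e4 : x + ((1 : ℕ) : ℝ) = x + 1 := by push_cast; ring
    rw [e3, e4]

private theorem prod86 {l : List ℕ} (hpos : ∀ u ∈ l, 1 ≤ u) : (1 : ℝ) ≤ ((l.prod : ℕ) : ℝ) := by
  have : 1 ≤ l.prod := by
    induction l with
    | nil => simp
    | cons u l ih =>
      rw [List.prod_cons]
      have h1 := hpos u (by simp)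
      have h2 := ih (fun v hv => hpos v (by simp [hv]))
      exact Nat.mul_le_mul h1 h2 |>.trans' (by norm_num)
  exact_mod_cast this

theorem left_sum {h R α η : ℝ} (hh : 1 ≤ h) (hR : 0 < R) (hη : 0 < η) (hη1 : η ≤ 1) {l : List ℕ} (hl : l.length = 4)
    (hpos : ∀ u ∈ l, 1 ≤ u) (hP : R / h ^ 5 * (l.prod : ℕ) ≤ 1) {a b : ℕ} (hab : a ≤ b) (hb : (b : ℝ) + (l.sum : ℕ) + 2 ≤ (y0 - η) * h) :
    ‖∑ n ∈ Finset.Ico a b, ee (df (phh h R α) l n)‖ ≤
      10 ^ 5 * (h * √(R / h ^ 5 * (l.prod : ℕ) / η) + 1 / √(η * (R / h ^ 5))) := by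
  have hh0 : 0 < h := by linarith
  have hy := y0_val
  have hL : 0 < R / h ^ 5 := by positivity
  have hP1 := prod86 hpos
  have hP0 : (0 : ℝ) < ((l.prod : ℕ) : ℝ) := by linarith
  have hs0 : (0 : ℝ) ≤ ((l.sum : ℕ) : ℝ) := Nat.cast_nonneg _
  have hyh : (y0 - η) * h ≤ 11 / 10 * h := mul_le_mul_of_nonneg_right (by linarith [hy.2.1]) hh0.le
  have hkey : ∀ n : ℕ, n + 1 < b → ∃ ξ : ℝ, 0 ≤ ξ ∧ ξ ≤ (y0 - η) * h ∧
      (df (phh h R α) l ((n + 2 : ℕ) : ℝ) - df (phh h R α) l ((n + 1 : ℕ) : ℝ)) -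
        (df (phh h R α) l ((n + 1 : ℕ) : ℝ) - df (phh h R α) l (n : ℝ)) =
        ((l.prod : ℕ) : ℝ) * (R * sd h 6 ξ) := by
    intro n hn
    obtain ⟨ξ, h1, h2, h3⟩ := mean86 (R := R) (α := α) hh0 hl (n : ℝ)
    have hn0 : (0 : ℝ) ≤ n := Nat.cast_nonneg n
    have hnb : (n : ℝ) + 1 ≤ b := by exact_mod_cast hn.le
    refine ⟨ξ, by linarith, by linarith, ?_⟩
    have e1 : ((n + 2 : ℕ) : ℝ) = (n : ℝ) + 2 := by push_cast; ring
    have e2 : ((n + 1 : ℕ) : ℝ) = (n : ℝ) + 1 := by push_cast; ring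
    rw [e1, e2]
    exact h3
  refine core86 (g := fun n : ℕ => df (phh h R α) l (n : ℝ)) hh hL hP1 hη hη1 hP (by linarith) ?_ ?_
  · intro n _ hn
    obtain ⟨ξ, h0, h1, h2⟩ := hkey n hn
    show _ ≤ (df (phh h R α) l ((n + 2 : ℕ) : ℝ) - df (phh h R α) l ((n + 1 : ℕ) : ℝ)) -
        (df (phh h R α) l ((n + 1 : ℕ) : ℝ) - df (phh h R α) l (n : ℝ))
    rw [h2]
    have h3 := sd_left hh0 hη.le h0 h1
    have h4 := mul_le_mul_of_nonneg_left (mul_le_mul_of_nonneg_left h3 hR.le) hP0.le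
    refine le_trans (le_of_eq ?_) h4
    field_simp
  · intro n _ hn
    obtain ⟨ξ, h0, h1, h2⟩ := hkey n hn
    show (df (phh h R α) l ((n + 2 : ℕ) : ℝ) - df (phh h R α) l ((n + 1 : ℕ) : ℝ)) -
        (df (phh h R α) l ((n + 1 : ℕ) : ℝ) - df (phh h R α) l (n : ℝ)) ≤ _
    rw [h2]
    have h3 := (abs_le.mp (sd_up hh0 h0 (h1.trans hyh))).2
    have h4 := mul_le_mul_of_nonneg_left (mul_le_mul_of_nonneg_left h3 hR.le) hP0.le
    refine h4.trans (le_of_eq ?_)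
    field_simp

theorem right_sum {h R α η : ℝ} (hh : 1 ≤ h) (hR : 0 < R) (hη : 0 < η) (hη1 : η ≤ 1) {l : List ℕ} (hl : l.length = 4)
    (hpos : ∀ u ∈ l, 1 ≤ u) (hP : R / h ^ 5 * (l.prod : ℕ) ≤ 1) {a b : ℕ} (hab : a ≤ b) (ha : (y0 + η) * h ≤ a)
    (hb : (b : ℝ) + (l.sum : ℕ) + 2 ≤ 11 / 10 * h) :
    ‖∑ n ∈ Finset.Ico a b, ee (df (phh h R α) l n)‖ ≤
      10 ^ 5 * (h * √(R / h ^ 5 * (l.prod : ℕ) / η) + 1 / √(η * (R / h ^ 5))) := by
  have hh0 : 0 < h := by linarith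
  have hy := y0_val
  have hL : 0 < R / h ^ 5 := by positivity
  have hP1 := prod86 hpos
  have hP0 : (0 : ℝ) < ((l.prod : ℕ) : ℝ) := by linarith
  have hs0 : (0 : ℝ) ≤ ((l.sum : ℕ) : ℝ) := Nat.cast_nonneg _
  have hyh : 0 ≤ (y0 + η) * h := mul_nonneg (by linarith [hy.1]) hh0.le
  have hkey : ∀ n : ℕ, a ≤ n → n + 1 < b → ∃ ξ : ℝ, (y0 + η) * h ≤ ξ ∧ ξ ≤ 11 / 10 * h ∧
      (df (phh h R α) l ((n + 2 : ℕ) : ℝ) - df (phh h R α) l ((n + 1 : ℕ) : ℝ)) -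
        (df (phh h R α) l ((n + 1 : ℕ) : ℝ) - df (phh h R α) l (n : ℝ)) =
        ((l.prod : ℕ) : ℝ) * (R * sd h 6 ξ) := by
    intro n han hn
    obtain ⟨ξ, h1, h2, h3⟩ := mean86 (R := R) (α := α) hh0 hl (n : ℝ)
    have hn0 : (a : ℝ) ≤ n := by exact_mod_cast han
    have hnb : (n : ℝ) + 1 ≤ b := by exact_mod_cast hn.le
    refine ⟨ξ, by linarith, by linarith, ?_⟩
    have e1 : ((n + 2 : ℕ) : ℝ) = (n : ℝ) + 2 := by push_cast; ring
    have e2 : ((n + 1 : ℕ) : ℝ) = (n : ℝ) + 1 := by push_cast; ring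
    rw [e1, e2]
    exact h3
  have hconj : ‖∑ n ∈ Finset.Ico a b, ee (df (phh h R α) l n)‖ =
      ‖∑ n ∈ Finset.Ico a b, ee (-df (phh h R α) l n)‖ := by
    rw [← Complex.norm_conj, map_sum]
    congr 1
    exact Finset.sum_congr rfl fun n _ => conj_ee _
  rw [hconj]
  refine core86 (g := fun n : ℕ => -df (phh h R α) l (n : ℝ)) hh hL hP1 hη hη1 hP (by linarith) ?_ ?_
  · intro n han hn
    obtain ⟨ξ, h0, h1, h2⟩ := hkey n han hn
    have h5 : (-df (phh h R α) l ((n + 2 : ℕ) : ℝ) - -df (phh h R α) l ((n + 1 : ℕ) : ℝ)) -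
        (-df (phh h R α) l ((n + 1 : ℕ) : ℝ) - -df (phh h R α) l (n : ℝ)) =
        ((l.prod : ℕ) : ℝ) * (R * -sd h 6 ξ) := by linear_combination -h2
    show _ ≤ (-df (phh h R α) l ((n + 2 : ℕ) : ℝ) - -df (phh h R α) l ((n + 1 : ℕ) : ℝ)) -
        (-df (phh h R α) l ((n + 1 : ℕ) : ℝ) - -df (phh h R α) l (n : ℝ))
    rw [h5]
    have h3 : η / (5 * h ^ 5) ≤ -sd h 6 ξ := by linarith [sd_right hh0 hη.le h0 h1]
    have h4 := mul_le_mul_of_nonneg_left (mul_le_mul_of_nonneg_left h3 hR.le) hP0.le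
    refine le_trans (le_of_eq ?_) h4
    field_simp
  · intro n han hn
    obtain ⟨ξ, h0, h1, h2⟩ := hkey n han hn
    have h5 : (-df (phh h R α) l ((n + 2 : ℕ) : ℝ) - -df (phh h R α) l ((n + 1 : ℕ) : ℝ)) -
        (-df (phh h R α) l ((n + 1 : ℕ) : ℝ) - -df (phh h R α) l (n : ℝ)) =
        ((l.prod : ℕ) : ℝ) * (R * -sd h 6 ξ) := by linear_combination -h2
    show (-df (phh h R α) l ((n + 2 : ℕ) : ℝ) - -df (phh h R α) l ((n + 1 : ℕ) : ℝ)) -
        (-df (phh h R α) l ((n + 1 : ℕ) : ℝ) - -df (phh h R α) l (n : ℝ)) ≤ _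
    rw [h5]
    have h3 : -sd h 6 ξ ≤ 2000 / h ^ 5 := by
      have := (abs_le.mp (sd_up hh0 (hyh.trans h0) h1)).1
      linarith
    have h4 := mul_le_mul_of_nonneg_left (mul_le_mul_of_nonneg_left h3 hR.le) hP0.le
    refine h4.trans (le_of_eq ?_)
    field_simp

end Pool.Agent.Helper89.VD
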