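import Pool.Agent.Helper89.VD.V2
import Pool.Agent.Helper89.VD.V4

/-!
# VD-V5: the one dimensional sum

PROOF. Put `Λ = R/h⁵ ∈ [h^(-6/5), 1]`, `η = Λ^(1/63)/10 ∈ (0, 1/10]`, `Y = Λ^(-16/63) ≥ 1`, so `Y ≤ h^(6/5 · 16/63) ≤ h^(31/100)`. If `h < 1000` the trivial bound `M ≤ h + 1 ≤ 2h` is enough (`Λ^(1/63) ≥ 1000^(-6/315) ≥ 1/2`). Let `h ≥ 1000`; then
`4Y + 3 ≤ h/10`. Let `m` be the natural number with `2^(8m) ≤ Y < 2^(8(m+1))` (`m = ⌊log₂ Y/8⌋₊`). For shifts `1 ≤ u₁ < 2^m`, ..., `u₄ < 2^(8m)` and `l = [u₄, u₃, u₂, u₁]`: `l.prod ≤ 2^(15m) ≤ Y^(15/8)`, `l.sum ≤ 4 · 2^(8m) ≤ 4Y`,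
`Λ l.prod ≤ Λ Y^(15/8) = Λ^(1 - 30/63) ≤ 1`. With `T = 10^5 (h √(Λ Y^(15/8)/η) + 1/√(η Λ))`: `Λ Y^(15/8)/η = 10 Λ^(32/63)`, `1/√(ηΛ) = √10 Λ^(-32/63) ≤ √10 h Λ^(16/63)` (because `Λ^(-48/63) ≤ h^(6/5 · 48/63) ≤ h`), so
`T ≤ 10^6 h Λ^(16/63)`.
(1) `n < n₁ := ⌊(y0 - η) h - 4Y - 2⌋₊` (positive): if `n₁ < 2^(8m)` the sum over `n < min M n₁` is trivially `≤ Y ≤ h^(31/100) ≤ h Λ^(1/63)`; otherwise `weyl4` with `N = n₁` and `left_sum` (`a = 0`, `b = M' ≤ n₁`):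
`8 n₁ (2^(-m/2) + (T/n₁)^(1/16)) ≤ 8 (h 2^(-m/2) + h^(15/16) T^(1/16))`, `2^(-m/2) = (2^(8m))^(-1/16) ≤ (Y/256)^(-1/16) ≤ 2 Λ^(1/63)`, `h^(15/16) T^(1/16) ≤ 10^(6/16) h Λ^(1/63)`.
(2) `n₁ ≤ n < n₂ := ⌈(y0 + η) h⌉₊`: at most `2ηh + 4Y + 5 ≤ C h Λ^(1/63)` terms (`Y ≤ h^(31/100) ≤ h Λ^(1/63)`).
(3) `n₂ ≤ n < M ≤ h + 1`: `weyl4` for `f x = phh h R α (x + n₂)` (`df_shift`) with `N = M - n₂` and `right_sum` (`a = n₂`, `b = n₂ + M'`, `b + l.sum + 2 ≤ h + 1 + 4Y + 2 ≤ 11h/10`); again the trivial bound if `N < 2^(8m)`.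
(The intervals are intersected with `range M`.)
-/

set_option autoImplicit false

open Set Real
open Pool.Agent.Helper22.GC (ee ee_add norm_ee conj_ee)

namespace Pool.Agent.Helper89.VD

private theorem triv_ee (s : Finset ℕ) (f : ℕ → ℝ) : ‖∑ n ∈ s, ee (f n)‖ ≤ s.card := by
  refine (norm_sum_le _ _).trans ?_
  simp [norm_ee]

/-- the parameters: `L = Λ^(1/63)` -/
private theorem L_facts {h L : ℝ} (hh : 1 ≤ h) (hL : 0 < L) (hL1 : L ≤ 1) (hb : h ^ (-(6 / 5) : ℝ) ≤ L ^ 63) :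
    ∀ k : ℕ, k ≤ 52 → 1 ≤ h * L ^ k := by
  have h0 : 0 < h := by linarith
  have h1 : h ^ (-6 : ℝ) ≤ (L ^ 63) ^ 5 := by
    calc h ^ (-6 : ℝ) = (h ^ (-(6 / 5) : ℝ)) ^ 5 := by
          rw [← Real.rpow_natCast (h ^ (-(6 / 5) : ℝ)) 5, ← Real.rpow_mul h0.le]; norm_num
      _ ≤ _ := pow_le_pow_left₀ (Real.rpow_nonneg h0.le _) hb 5
  have h2 : 1 ≤ h ^ 6 * L ^ 315 := by
    have e : h ^ (-6 : ℝ) = (h ^ 6)⁻¹ := by
      rw [Real.rpow_neg h0.le]; norm_num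
    rw [e, ← pow_mul] at h1
    have := mul_le_mul_of_nonneg_left h1 (by positivity : (0 : ℝ) ≤ h ^ 6)
    rwa [mul_inv_cancel₀ (by positivity)] at this
  intro k hk
  by_contra hcon
  push Not at hcon
  have h3 : (h * L ^ k) ^ 6 < 1 := pow_lt_one₀ (by positivity) hcon (by norm_num)
  have h4 : h ^ 6 * L ^ 315 ≤ (h * L ^ k) ^ 6 := by
    rw [mul_pow, ← pow_mul]
    exact mul_le_mul_of_nonneg_left (pow_le_pow_of_le_one hL.le hL1 (by omega)) (by positivity)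
  linarith

/-- the final bound of one `weyl4` application -/
private theorem final_bd {h L N T : ℝ} {m : ℕ} (hh : 1 ≤ h) (hL : 0 < L) (hL1 : L ≤ 1) (hN0 : 0 ≤ N) (hN : N ≤ h + 1) (hT : T = 10 ^ 6 * h * L ^ 16)
    (hm : (L ^ 2)⁻¹ < 2 ^ (m + 1)) :
    8 * N * ((2 : ℝ) ^ (-(m : ℝ) / 2) + (T / N) ^ (1 / 16 : ℝ)) ≤ 100 * h * L := by
  have h0 : 0 < h := by linarith
  have hN2 : N ≤ 2 * h := by linarith
  have ha : (2 : ℝ) ^ (-(m : ℝ) / 2) ≤ 2 * L := by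
    have e1 : ((2 : ℝ) ^ (-(m : ℝ) / 2)) ^ 2 = ((2 : ℝ) ^ m)⁻¹ := by
      rw [← Real.rpow_natCast ((2 : ℝ) ^ (-(m : ℝ) / 2)) 2, ← Real.rpow_mul (by norm_num)]
      rw [show -(m : ℝ) / 2 * ((2 : ℕ) : ℝ) = -(m : ℝ) by push_cast; ring, Real.rpow_neg (by norm_num), Real.rpow_natCast]
    have e2 : ((2 : ℝ) ^ m)⁻¹ ≤ 2 * L ^ 2 := by
      rw [inv_le_comm₀ (by positivity) (by positivity)]
      have hm' : (2 : ℝ) ^ (m + 1) = 2 ^ m * 2 := pow_succ _ _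
      rw [hm'] at hm
      rw [mul_inv]
      linarith
    refine abs_le_of_sq_le_sq' ?_ (by positivity) |>.2
    rw [e1]
    nlinarith [sq_nonneg L]
  have hb : N * (T / N) ^ (1 / 16 : ℝ) ≤ 2 * h * (3 * L) := by
    rcases hN0.eq_or_lt with h1 | h1
    · rw [← h1]; simp; positivity
    · have hTp : 0 ≤ T := by rw [hT]; positivity
      have e0 : 0 ≤ (T / N) ^ (1 / 16 : ℝ) := Real.rpow_nonneg (by positivity) _
      have e3 : ((T / N) ^ (1 / 16 : ℝ)) ^ 16 = T / N := by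
        rw [← Real.rpow_natCast ((T / N) ^ (1 / 16 : ℝ)) 16, ← Real.rpow_mul (by positivity)]; norm_num
      have e1 : (N * (T / N) ^ (1 / 16 : ℝ)) ^ 16 ≤ (2 * h * (3 * L)) ^ 16 := by
        rw [mul_pow, e3]
        have : N ^ 16 * (T / N) = N ^ 15 * T := by field_simp
        rw [this, hT]
        calc N ^ 15 * (10 ^ 6 * h * L ^ 16) ≤ (2 * h) ^ 15 * (10 ^ 6 * h * L ^ 16) := by gcongr
          _ = 2 ^ 15 * 10 ^ 6 * (h ^ 16 * L ^ 16) := by ring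
          _ ≤ 2 ^ 16 * 3 ^ 16 * (h ^ 16 * L ^ 16) := by
              apply mul_le_mul_of_nonneg_right _ (by positivity)
              norm_num
          _ = _ := by ring
      exact le_of_pow_le_pow_left₀ (by norm_num) (by positivity) e1
  calc 8 * N * ((2 : ℝ) ^ (-(m : ℝ) / 2) + (T / N) ^ (1 / 16 : ℝ)) = 8 * (N * (2 : ℝ) ^ (-(m : ℝ) / 2)) + 8 * (N * (T / N) ^ (1 / 16 : ℝ)) := by ring
    _ ≤ 8 * (2 * h * (2 * L)) + 8 * (2 * h * (3 * L)) := by gcongr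
    _ ≤ 100 * h * L := by nlinarith [mul_pos h0 hL]

/-- the bound of the differenced sums -/
private theorem T_bd {h R L : ℝ} (hh : 1 ≤ h) (hL : 0 < L) (hL1 : L ≤ 1) (hΛ : R / h ^ 5 = L ^ 63) (hF : 1 ≤ h * L ^ 48) {P : ℝ} (hP0 : 0 ≤ P)
    (hP : P ≤ (L ^ 30)⁻¹) :
    10 ^ 5 * (h * √(R / h ^ 5 * P / (L / 10)) + 1 / √(L / 10 * (R / h ^ 5))) ≤ 10 ^ 6 * h * L ^ 16 := by
  have h0 : 0 < h := by linarith
  rw [hΛ]
  have e1 : √(L ^ 63 * P / (L / 10)) ≤ 4 * L ^ 16 := by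
    rw [Real.sqrt_le_left (by positivity)]
    have : L ^ 63 * P ≤ L ^ 33 := by
      calc L ^ 63 * P ≤ L ^ 63 * (L ^ 30)⁻¹ := by gcongr
        _ = L ^ 33 := by
          rw [show (63 : ℕ) = 33 + 30 from rfl, pow_add, mul_assoc, mul_inv_cancel₀ (by positivity), mul_one]
    rw [div_le_iff₀ (by positivity)]
    have e2 : (4 * L ^ 16) ^ 2 * (L / 10) = 16 / 10 * L ^ 33 := by ring
    rw [e2]
    have : 0 ≤ L ^ 33 := by positivity
    linarith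
  have e2 : 1 / √(L / 10 * L ^ 63) ≤ 4 * h * L ^ 16 := by
    have e3 : √(L / 10 * L ^ 63) = L ^ 32 / √10 := by
      rw [show L / 10 * L ^ 63 = (L ^ 32) ^ 2 / 10 by ring, Real.sqrt_div (by positivity), Real.sqrt_sq (by positivity)]
    rw [e3, one_div_div, div_le_iff₀ (by positivity)]
    have e4 : √10 ≤ 4 := by
      rw [Real.sqrt_le_left (by norm_num)]; norm_num
    have e5 : 4 * h * L ^ 16 * L ^ 32 = 4 * (h * L ^ 48) := by ring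
    rw [e5]
    linarith
  calc 10 ^ 5 * (h * √(L ^ 63 * P / (L / 10)) + 1 / √(L / 10 * L ^ 63)) ≤ 10 ^ 5 * (h * (4 * L ^ 16) + 4 * h * L ^ 16) := by gcongr
    _ ≤ _ := by
      have : 0 ≤ h * L ^ 16 := by positivity
      nlinarith

private theorem shifts {L : ℝ} (hL : 0 < L) {m : ℕ} (hm : (2 : ℝ) ^ m ≤ (L ^ 2)⁻¹) {u₁ u₂ u₃ u₄ : ℕ} (h1 : u₁ < 2 ^ m) (h2 : u₂ < 2 ^ (2 * m))
    (h3 : u₃ < 2 ^ (4 * m)) (h4 : u₄ < 2 ^ (8 * m)) :
    (([u₄, u₃, u₂, u₁].prod : ℕ) : ℝ) ≤ (L ^ 30)⁻¹ ∧ (([u₄, u₃, u₂, u₁].sum : ℕ) : ℝ) ≤ 4 * (L ^ 16)⁻¹ := by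
  have hz : (1 : ℝ) ≤ 2 ^ m := one_le_pow₀ (by norm_num)
  set z : ℝ := 2 ^ m with hzd
  have hz0 : 0 < z := by positivity
  have g1 : (u₁ : ℝ) ≤ z := by
    have := (Nat.cast_lt (α := ℝ)).2 h1
    push_cast at this
    exact this.le
  have g2 : (u₂ : ℝ) ≤ z ^ 2 := by
    have := (Nat.cast_lt (α := ℝ)).2 h2
    push_cast at this
    rw [hzd, ← pow_mul, mul_comm m 2]
    exact this.le
  have g3 : (u₃ : ℝ) ≤ z ^ 4 := by
    have := (Nat.cast_lt (α := ℝ)).2 h3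
    push_cast at this
    rw [hzd, ← pow_mul, mul_comm m 4]
    exact this.le
  have g4 : (u₄ : ℝ) ≤ z ^ 8 := by
    have := (Nat.cast_lt (α := ℝ)).2 h4
    push_cast at this
    rw [hzd, ← pow_mul, mul_comm m 8]
    exact this.le
  have hzp : ∀ k : ℕ, z ^ k ≤ (L ^ (2 * k))⁻¹ := fun k => by
    rw [pow_mul L 2 k, ← inv_pow]
    exact pow_le_pow_left₀ hz0.le hm k
  constructor
  · simp only [List.prod_cons, List.prod_nil, mul_one]
    push_cast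
    calc (u₄ : ℝ) * (u₃ * (u₂ * u₁)) ≤ z ^ 8 * (z ^ 4 * (z ^ 2 * z)) := by gcongr
      _ = z ^ 15 := by ring
      _ ≤ _ := hzp 15
  · simp only [List.sum_cons, List.sum_nil, add_zero]
    push_cast
    have k1 : z ≤ z ^ 8 := le_self_pow₀ hz (by norm_num)
    have k2 : z ^ 2 ≤ z ^ 8 := pow_le_pow_right₀ hz (by norm_num)
    have k4 : z ^ 4 ≤ z ^ 8 := pow_le_pow_right₀ hz (by norm_num)
    have := hzp 8
    norm_num at this
    linarith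

theorem one_dim : ∃ C : ℝ, 0 < C ∧ ∀ h R α : ℝ, 1 ≤ h → 0 < R → R ≤ h ^ 5 → h ^ (-(6 / 5) : ℝ) ≤ R / h ^ 5 → ∀ M : ℕ, (M : ℝ) ≤ h + 1 →
    ‖∑ n ∈ Finset.range M, ee (phh h R α n)‖ ≤ C * h * (R / h ^ 5) ^ (1 / 63 : ℝ) := by
  refine ⟨1000, by norm_num, ?_⟩
  intro h R α hh hR hRh hlow M hM
  have h0 : 0 < h := by linarith
  have hΛ0 : 0 < R / h ^ 5 := by positivity
  have hΛ1 : R / h ^ 5 ≤ 1 := by rw [div_le_one (by positivity)]; exact hRh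
  set L : ℝ := (R / h ^ 5) ^ (1 / 63 : ℝ) with hLd
  have hL : 0 < L := Real.rpow_pos_of_pos hΛ0 _
  have hL1 : L ≤ 1 := Real.rpow_le_one hΛ0.le hΛ1 (by norm_num)
  have hΛ : R / h ^ 5 = L ^ 63 := by
    rw [hLd, ← Real.rpow_natCast ((R / h ^ 5) ^ (1 / 63 : ℝ)) 63, ← Real.rpow_mul hΛ0.le]; norm_num
  have hF := L_facts hh hL hL1 (by rw [← hΛ]; exact hlow)
  have hLh : 1 ≤ h * L := by simpa using hF 1 (by norm_num)
  by_cases hbig : h < 1000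
  · refine (triv_ee _ _).trans ?_
    rw [Finset.card_range]
    have h1 := hF 16 (by norm_num)
    -- L ≥ 1/2
    have hL2 : 1 / 2 ≤ L := by
      by_contra hc
      push Not at hc
      have : L ^ 16 ≤ (1 / 2) ^ 16 := pow_le_pow_left₀ hL.le hc.le 16
      norm_num at this
      nlinarith [pow_pos hL 16]
    nlinarith
  push Not at hbig
  obtain ⟨hy1, hy2, -⟩ := y0_val
  -- m
  have hD1 : 1 ≤ (L ^ 2)⁻¹ := (one_le_inv₀ (by positivity)).2 (pow_le_one₀ hL.le hL1)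
  obtain ⟨m, hm1, hm2⟩ := exists_nat_pow_near hD1 (show (1 : ℝ) < 2 by norm_num)
  set Y : ℝ := (L ^ 16)⁻¹ with hY
  have hY0 : 0 < Y := by positivity
  have hYh : Y ≤ h / 100 := by
    have h1 := hF 48 (by norm_num)
    by_contra hc
    push Not at hc
    have e : Y * L ^ 16 = 1 := by rw [hY]; exact inv_mul_cancel₀ (by positivity)
    have e2 : Y ^ 3 * L ^ 48 = 1 := by
      calc Y ^ 3 * L ^ 48 = (Y * L ^ 16) ^ 3 := by ring
        _ = 1 := by rw [e]; norm_num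
    have e3 : Y ^ 3 ≤ h := by
      have : 0 < L ^ 48 := by positivity
      nlinarith
    have e4 : (h / 100) ^ 3 < Y ^ 3 := pow_lt_pow_left₀ hc (by positivity) (by norm_num)
    have e5 : (h / 100) ^ 3 = h * (h ^ 2 / 10 ^ 6) := by ring
    have e6 : 1 ≤ h ^ 2 / 10 ^ 6 := by
      rw [le_div_iff₀ (by norm_num)]; nlinarith
    nlinarith
  have hYL : Y ≤ h * L := by
    rw [hY, inv_le_iff_one_le_mul₀ (by positivity)]
    have := hF 17 (by norm_num)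
    calc (1 : ℝ) ≤ h * L ^ 17 := this
      _ = h * L * L ^ 16 := by ring
  set T : ℝ := 10 ^ 6 * h * L ^ 16 with hT
  have hT0 : 0 ≤ T := by positivity
  have hpow8 : ((2 ^ (8 * m) : ℕ) : ℝ) ≤ Y := by
    push_cast
    have := pow_le_pow_left₀ (by positivity) hm1 8
    rw [inv_pow, ← pow_mul, ← pow_mul] at this
    rw [hY, mul_comm 8 m]
    simpa using this
  have hη : 0 < L / 10 := by positivity
  have hη1 : L / 10 ≤ 1 := by linarith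
  -- the lists
  have hlist : ∀ u₁ u₂ u₃ u₄ : ℕ, 1 ≤ u₁ → u₁ < 2 ^ m → 1 ≤ u₂ → u₂ < 2 ^ (2 * m) → 1 ≤ u₃ → u₃ < 2 ^ (4 * m) → 1 ≤ u₄ → u₄ < 2 ^ (8 * m) →
      (∀ u ∈ [u₄, u₃, u₂, u₁], 1 ≤ u) ∧ R / h ^ 5 * ([u₄, u₃, u₂, u₁].prod : ℕ) ≤ 1 ∧ (([u₄, u₃, u₂, u₁].sum : ℕ) : ℝ) ≤ 4 * Y ∧
      10 ^ 5 * (h * √(R / h ^ 5 * ([u₄, u₃, u₂, u₁].prod : ℕ) / (L / 10)) + 1 / √(L / 10 * (R / h ^ 5))) ≤ T := by
    intro u₁ u₂ u₃ u₄ a1 b1 a2 b2 a3 b3 a4 b4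
    obtain ⟨p1, p2⟩ := shifts hL hm1 b1 b2 b3 b4
    refine ⟨?_, ?_, p2, T_bd hh hL hL1 hΛ (hF 48 (by norm_num)) (Nat.cast_nonneg _) p1⟩
    · intro u hu
      simp only [List.mem_cons, List.not_mem_nil, or_false] at hu
      rcases hu with rfl | rfl | rfl | rfl <;> assumption
    · rw [hΛ]
      calc L ^ 63 * (([u₄, u₃, u₂, u₁].prod : ℕ) : ℝ) ≤ L ^ 63 * (L ^ 30)⁻¹ := by gcongr
        _ = L ^ 33 := by
          rw [show (63 : ℕ) = 33 + 30 from rfl, pow_add, mul_assoc, mul_inv_cancel₀ (by positivity), mul_one]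
        _ ≤ 1 := pow_le_one₀ hL.le hL1
  -- part (1)
  set n₁ : ℕ := ⌊(y0 - L / 10) * h - 4 * Y - 2⌋₊ with hn₁
  have hpos : 0 ≤ (y0 - L / 10) * h - 4 * Y - 2 := by
    have : 297 / 1000 - 1 / 10 ≤ y0 - L / 10 := by linarith
    nlinarith
  have hn₁le : (n₁ : ℝ) ≤ (y0 - L / 10) * h - 4 * Y - 2 := Nat.floor_le hpos
  have hn₁ge : (y0 - L / 10) * h - 4 * Y - 2 < n₁ + 1 := Nat.lt_floor_add_one _
  have hn₁h : (n₁ : ℝ) ≤ h := by
    have : (y0 - L / 10) * h ≤ 1 * h := by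
      apply mul_le_mul_of_nonneg_right _ h0.le
      linarith
    linarith
  have hpart1 : ∀ M' ≤ n₁, ‖∑ n ∈ Finset.range M', ee (phh h R α n)‖ ≤ 100 * h * L := by
    intro M' hM'
    by_cases hc : 2 ^ (8 * m) ≤ n₁
    · refine (weyl4 (f := phh h R α) hc hT0 ?_ M' hM').trans (final_bd hh hL hL1 (Nat.cast_nonneg _) (by linarith) hT hm2)
      intro u₁ u₂ u₃ u₄ a1 b1 a2 b2 a3 b3 a4 b4 M'' hM''
      obtain ⟨q1, q2, q3, q4⟩ := hlist u₁ u₂ u₃ u₄ a1 b1 a2 b2 a3 b3 a4 b4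
      have := left_sum (α := α) hh hR hη hη1 (l := [u₄, u₃, u₂, u₁]) rfl q1 q2 (a := 0) (b := M'') (Nat.zero_le _) (by
        have : (M'' : ℝ) ≤ n₁ := by exact_mod_cast hM''
        linarith)
      rw [← Finset.range_eq_Ico] at this
      exact this.trans q4
    · push Not at hc
      refine (triv_ee _ _).trans ?_
      rw [Finset.card_range]
      have e1 : (M' : ℝ) ≤ n₁ := by exact_mod_cast hM'
      have e2 : (n₁ : ℝ) ≤ (2 ^ (8 * m) : ℕ) := by exact_mod_cast hc.le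
      nlinarith
  -- part (3)
  set n₂ : ℕ := ⌈(y0 + L / 10) * h⌉₊ with hn₂
  have hn₂ge : (y0 + L / 10) * h ≤ n₂ := Nat.le_ceil _
  have hn₂le : (n₂ : ℝ) < (y0 + L / 10) * h + 1 := Nat.ceil_lt_add_one (by positivity)
  have hn12 : n₁ ≤ n₂ := by
    have : (n₁ : ℝ) ≤ n₂ := by nlinarith
    exact_mod_cast this
  have hpart3 : ∀ N : ℕ, n₂ + N ≤ M → ‖∑ n ∈ Finset.range N, ee (phh h R α ((n₂ + n : ℕ) : ℝ))‖ ≤ 100 * h * L := by
    intro N hN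
    have hNR : (n₂ : ℝ) + N ≤ M := by exact_mod_cast hN
    have hfe : ∀ n : ℕ, phh h R α ((n₂ + n : ℕ) : ℝ) = (fun y => phh h R α (y + n₂)) (n : ℝ) := fun n => by
      simp only []
      rw [Nat.cast_add, add_comm]
    simp only [hfe]
    by_cases hc : 2 ^ (8 * m) ≤ N
    · refine (weyl4 (f := fun y => phh h R α (y + n₂)) hc hT0 ?_ N le_rfl).trans (final_bd hh hL hL1 (Nat.cast_nonneg _) (by
          have : (0 : ℝ) ≤ n₂ := Nat.cast_nonneg _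
          linarith) hT hm2)
      intro u₁ u₂ u₃ u₄ a1 b1 a2 b2 a3 b3 a4 b4 M'' hM''
      obtain ⟨q1, q2, q3, q4⟩ := hlist u₁ u₂ u₃ u₄ a1 b1 a2 b2 a3 b3 a4 b4
      have := right_sum (α := α) hh hR hη hη1 (l := [u₄, u₃, u₂, u₁]) rfl q1 q2 (a := n₂) (b := n₂ + M'') (Nat.le_add_right _ _) hn₂ge (by
        have : (M'' : ℝ) ≤ N := by exact_mod_cast hM''
        rw [Nat.cast_add]
        linarith)
      rw [Finset.sum_Ico_eq_sum_range, Nat.add_sub_cancel_left] at this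
      refine le_trans (le_of_eq ?_) (this.trans q4)
      congr 1
      refine Finset.sum_congr rfl fun n _ => ?_
      rw [df_shift, Nat.cast_add, add_comm (n : ℝ)]
    · push Not at hc
      refine (triv_ee _ _).trans ?_
      rw [Finset.card_range]
      have e2 : (N : ℝ) ≤ (2 ^ (8 * m) : ℕ) := by exact_mod_cast hc.le
      nlinarith
  -- part (2)
  have hmid : (n₂ : ℝ) - n₁ ≤ 20 * h * L := by
    have : (n₂ : ℝ) - n₁ ≤ h * L / 5 + 4 * Y + 4 := by nlinarith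
    nlinarith
  -- assembly
  set A := min M n₁ with hA
  set B := min M n₂ with hB
  have hAB : A ≤ B := min_le_min_left _ hn12
  have hBM : B ≤ M := min_le_left _ _
  have hsplit : ∑ n ∈ Finset.range M, ee (phh h R α n) =
      ∑ n ∈ Finset.range A, ee (phh h R α n) + ∑ n ∈ Finset.Ico A B, ee (phh h R α n) + ∑ n ∈ Finset.Ico B M, ee (phh h R α n) := by
    rw [Finset.range_eq_Ico, Finset.range_eq_Ico, Finset.sum_Ico_consecutive _ (Nat.zero_le _) hAB,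
      Finset.sum_Ico_consecutive _ (Nat.zero_le _) hBM]
  have s1 : ‖∑ n ∈ Finset.range A, ee (phh h R α n)‖ ≤ 100 * h * L := hpart1 A (min_le_right _ _)
  have s2 : ‖∑ n ∈ Finset.Ico A B, ee (phh h R α n)‖ ≤ 20 * h * L := by
    refine (triv_ee _ (fun n => phh h R α n)).trans ?_
    rw [Nat.card_Ico]
    have : B - A ≤ n₂ - n₁ := by omega
    have h2 : ((B - A : ℕ) : ℝ) ≤ ((n₂ - n₁ : ℕ) : ℝ) := by exact_mod_cast this
    rw [Nat.cast_sub hn12] at h2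
    linarith
  have s3 : ‖∑ n ∈ Finset.Ico B M, ee (phh h R α n)‖ ≤ 100 * h * L := by
    rcases le_total M n₂ with hc | hc
    · have : B = M := min_eq_left hc
      rw [this]
      simp
      positivity
    · have : B = n₂ := min_eq_right hc
      rw [this, Finset.sum_Ico_eq_sum_range]
      exact hpart3 (M - n₂) (by omega)
  rw [hsplit]
  calc _ ≤ 100 * h * L + 20 * h * L + 100 * h * L :=
        (norm_add_le _ _).trans (add_le_add ((norm_add_le _ _).trans (add_le_add s1 s2)) s3)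
    _ ≤ 1000 * h * L := by nlinarith [mul_pos h0 hL]

end Pool.Agent.Helper89.VD
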