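import Pool.Agent.Helper89.VD.V5
import Pool.Agent.Helper92.GC.G3

/-!
# VD-V6: the octant sum for small K

PROOFS. `ee_eq`: definitions. `abel`: summation by parts: `∑_{j<M} w j * z j = w (M-1) Z_M + ∑_{j<M-1} (w j - w (j+1)) Z_(j+1)` with `Z_m = ∑_{j<m} z j`, `‖Z_m‖ ≤ S`, `w` antitone, `0 ≤ w ≤ 1`; total `≤ w 0 S ≤ S`. (Induction on `M`:
e.g. prove `‖∑_{j<M} w j z j‖ ≤ S` for all antitone `w : ℕ → ℝ` with values in `[0,1]` by `Finset.sum_range_by_parts` or an explicit identity.)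
`oct_small`: `oct K` is the set of the `(h, j)` with `K ≤ h < 2K`, `0 ≤ j ≤ h`: `bs (oct K) K i R c = ∑_{h=K}^{2K-1} ee (h c.1) ∑_{j=0}^{h} (K/√(h²+j²))^i ee (R √(h²+j²) + c.2 j)`, `nk (h, j) = √(h²+j²)`,
`dt (h, j) c = h c.1 + j c.2`. Inner sum: `abel` with `w j = (K/√(h²+j²))^i` (antitone in `j`, `≤ 1` because `√(h²+j²) ≥ h ≥ K`), `z j = ee (phh h R c.2 j)`, and `one_dim` for all `m ≤ h + 1` (`R ≤ 4R₀ ≤ K⁵ ≤ h⁵`;
`h^(-6/5) ≤ R/h⁵` iff `h^(19/5) ≤ R`, and `h ≤ 2K`, `(2K)^(19/5) ≤ R₀/4 ≤ R`): `≤ C h (R/h⁵)^(1/63) ≤ C 2K (4R₀/K⁵)^(1/63) ≤ 4 C K (R₀/K⁵)^(1/63)`. There are `K` values of `h`.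
-/

open MeasureTheory Real Set Filter Topology

set_option autoImplicit false

namespace Pool.Agent.Helper89.VD

open Pool.Agent.Helper92.GC

theorem ee_eq (x : ℝ) : Pool.Agent.Helper22.AE.ee x = Pool.Agent.Helper22.GC.ee x := by
  unfold Pool.Agent.Helper22.AE.ee Pool.Agent.Helper22.GC.ee
  congr 1
  push_cast
  ring

theorem abel {z : ℕ → ℂ} {w : ℕ → ℝ} {S : ℝ} {M : ℕ} (hw : Antitone w) (hw0 : ∀ j, 0 ≤ w j) (hw1 : ∀ j, w j ≤ 1)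
    (h : ∀ m ≤ M, ‖∑ j ∈ Finset.range m, z j‖ ≤ S) : ‖∑ j ∈ Finset.range M, (w j : ℂ) * z j‖ ≤ S := by
  have hS : 0 ≤ S := by simpa using h 0 (Nat.zero_le _)
  have key : ∀ M : ℕ, ∑ j ∈ Finset.range M, (w j : ℂ) * z j = (w M : ℂ) * ∑ j ∈ Finset.range M, z j +
      ∑ j ∈ Finset.range M, ((w j - w (j + 1) : ℝ) : ℂ) * ∑ l ∈ Finset.range (j + 1), z l := by
    intro M
    induction M with
    | zero => simp
    | succ M ih =>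
      rw [Finset.sum_range_succ, ih, Finset.sum_range_succ (fun j => ((w j - w (j + 1) : ℝ) : ℂ) * _) M,
        Finset.sum_range_succ z M]
      push_cast
      ring
  rw [key M]
  have h1 : ‖(w M : ℂ) * ∑ j ∈ Finset.range M, z j‖ ≤ w M * S := by
    rw [norm_mul, Complex.norm_real, Real.norm_of_nonneg (hw0 M)]
    exact mul_le_mul_of_nonneg_left (h M le_rfl) (hw0 M)
  have h2 : ‖∑ j ∈ Finset.range M, ((w j - w (j + 1) : ℝ) : ℂ) * ∑ l ∈ Finset.range (j + 1), z l‖ ≤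
      ∑ j ∈ Finset.range M, (w j - w (j + 1)) * S := by
    refine (norm_sum_le _ _).trans (Finset.sum_le_sum ?_)
    intro j hj
    have hj' : 0 ≤ w j - w (j + 1) := sub_nonneg.2 (hw (Nat.le_succ j))
    rw [norm_mul, Complex.norm_real, Real.norm_of_nonneg hj']
    exact mul_le_mul_of_nonneg_left (h (j + 1) (Finset.mem_range.1 hj)) hj'
  have h3 : ∑ j ∈ Finset.range M, (w j - w (j + 1)) * S = (w 0 - w M) * S := by
    rw [← Finset.sum_mul, Finset.sum_range_sub']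
  refine (norm_add_le _ _).trans ((add_le_add h1 (h2.trans_eq h3)).trans ?_)
  have h4 : w M * S + (w 0 - w M) * S = w 0 * S := by ring
  rw [h4]
  nlinarith [hw1 0]

private lemma oct_sum (K : ℕ) (f : ℤ × ℤ → ℂ) :
    ∑ k ∈ oct K, f k = ∑ h ∈ Finset.Ico K (2 * K), ∑ j ∈ Finset.range (h + 1), f ((h : ℤ), (j : ℤ)) := by
  rw [Finset.sum_sigma']
  refine Finset.sum_nbij' (fun k => ⟨k.1.toNat, k.2.toNat⟩) (fun x => ((x.1 : ℤ), (x.2 : ℤ))) ?_ ?_ ?_ ?_ ?_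
  · intro k hk
    unfold oct at hk
    rw [Finset.mem_filter] at hk
    obtain ⟨_, h1, h2, h3, h4⟩ := hk
    simp only [Finset.mem_sigma, Finset.mem_Ico, Finset.mem_range]
    omega
  · rintro ⟨h, j⟩ hx
    simp only [Finset.mem_sigma, Finset.mem_Ico, Finset.mem_range] at hx
    obtain ⟨⟨h1, h2⟩, h3⟩ := hx
    unfold oct Pool.Agent.Helper22.AE.box
    simp only [Finset.mem_filter, Finset.mem_product, Finset.mem_Icc]
    push_cast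
    omega
  · intro k hk
    unfold oct at hk
    rw [Finset.mem_filter] at hk
    obtain ⟨_, h1, h2, h3, h4⟩ := hk
    ext
    · simp only
      omega
    · simp only
      omega
  · rintro ⟨h, j⟩ hx
    simp
  · intro k hk
    unfold oct at hk
    rw [Finset.mem_filter] at hk
    obtain ⟨_, h1, h2, h3, h4⟩ := hk
    congr 1
    ext
    · simp only
      omega
    · simp only
      omega

private lemma nk_eq (h j : ℕ) : Pool.Agent.Helper22.AE.nk ((h : ℤ), (j : ℤ)) = √((h : ℝ) ^ 2 + (j : ℝ) ^ 2) := by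
  unfold Pool.Agent.Helper22.AE.nk Pool.Agent.Helper22.AE.cz
  rw [Complex.norm_def, Complex.normSq_mk]
  congr 1
  push_cast
  ring

private lemma row {C R₀ R : ℝ} {K : ℕ} (hC : 0 < C)
    (hone : ∀ h R α : ℝ, 1 ≤ h → 0 < R → R ≤ h ^ 5 → h ^ (-(6 / 5) : ℝ) ≤ R / h ^ 5 → ∀ M : ℕ, (M : ℝ) ≤ h + 1 →
      ‖∑ n ∈ Finset.range M, Pool.Agent.Helper22.GC.ee (phh h R α n)‖ ≤ C * h * (R / h ^ 5) ^ (1 / 63 : ℝ))
    (hR₀ : 1 ≤ R₀) (hR1 : R₀ / 4 ≤ R) (hR2 : R ≤ 4 * R₀) (hK : 1 ≤ K) (hK5 : 4 * R₀ ≤ (K : ℝ) ^ 5)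
    (hKs : (2 * (K : ℝ)) ^ (19 / 5 : ℝ) ≤ R₀ / 4) (i : ℕ) (c : ℝ × ℝ) (h : ℕ) (h1 : K ≤ h) (h2 : h < 2 * K) :
    ‖∑ j ∈ Finset.range (h + 1), (((K : ℝ) / Pool.Agent.Helper22.AE.nk ((h : ℤ), (j : ℤ)) : ℝ) : ℂ) ^ i *
      Pool.Agent.Helper22.AE.ee (R * Pool.Agent.Helper22.AE.nk ((h : ℤ), (j : ℤ)) + dt ((h : ℤ), (j : ℤ)) c)‖ ≤
        8 * C * K * (R₀ / (K : ℝ) ^ 5) ^ (1 / 63 : ℝ) := by
  have hK0 : (1 : ℝ) ≤ K := by exact_mod_cast hK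
  have hh1 : (K : ℝ) ≤ h := by exact_mod_cast h1
  have hh2 : (h : ℝ) ≤ 2 * K := by exact_mod_cast h2.le
  have hh0 : (1 : ℝ) ≤ h := hK0.trans hh1
  have hhp : (0 : ℝ) < h := by linarith
  have hKp : (0 : ℝ) < K := by linarith
  have hRp : 0 < R := by linarith
  -- the weight
  have e : ∀ j : ℕ, (((K : ℝ) / Pool.Agent.Helper22.AE.nk ((h : ℤ), (j : ℤ)) : ℝ) : ℂ) ^ i *
      Pool.Agent.Helper22.AE.ee (R * Pool.Agent.Helper22.AE.nk ((h : ℤ), (j : ℤ)) + dt ((h : ℤ), (j : ℤ)) c) =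
      Pool.Agent.Helper22.GC.ee (h * c.1) * (((((K : ℝ) / √((h : ℝ) ^ 2 + (j : ℝ) ^ 2)) ^ i : ℝ) : ℂ) *
        Pool.Agent.Helper22.GC.ee (phh h R c.2 j)) := by
    intro j
    rw [nk_eq, ee_eq]
    have e2 : R * √((h : ℝ) ^ 2 + (j : ℝ) ^ 2) + dt ((h : ℤ), (j : ℤ)) c = h * c.1 + phh h R c.2 j := by
      unfold dt phh
      push_cast
      ring
    rw [e2, Pool.Agent.Helper22.GC.ee_add]
    push_cast
    ring
  rw [Finset.sum_congr rfl (fun j _ => e j), ← Finset.mul_sum, norm_mul, Pool.Agent.Helper22.GC.norm_ee, one_mul]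
  have hsq : ∀ j : ℕ, (K : ℝ) ≤ √((h : ℝ) ^ 2 + (j : ℝ) ^ 2) := by
    intro j
    apply Real.le_sqrt_of_sq_le
    nlinarith [sq_nonneg (j : ℝ)]
  have hq0 : ∀ j : ℕ, 0 ≤ (K : ℝ) / √((h : ℝ) ^ 2 + (j : ℝ) ^ 2) := fun j => by positivity
  have hq1 : ∀ j : ℕ, (K : ℝ) / √((h : ℝ) ^ 2 + (j : ℝ) ^ 2) ≤ 1 := by
    intro j
    rw [div_le_one (hKp.trans_le (hsq j))]
    exact hsq j
  have hbase := abel (z := fun j => Pool.Agent.Helper22.GC.ee (phh h R c.2 j))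
    (w := fun j => ((K : ℝ) / √((h : ℝ) ^ 2 + (j : ℝ) ^ 2)) ^ i) (M := h + 1)
    (S := C * h * (R / (h : ℝ) ^ 5) ^ (1 / 63 : ℝ)) ?_ ?_ ?_ ?_
  · refine hbase.trans ?_
    have h3 : R / (h : ℝ) ^ 5 ≤ 4 * (R₀ / (K : ℝ) ^ 5) := by
      rw [← mul_div_assoc]
      have : (K : ℝ) ^ 5 ≤ (h : ℝ) ^ 5 := pow_le_pow_left₀ hKp.le hh1 5
      exact div_le_div₀ (by linarith) hR2 (by positivity) this
    have h4 : (R / (h : ℝ) ^ 5) ^ (1 / 63 : ℝ) ≤ 4 * (R₀ / (K : ℝ) ^ 5) ^ (1 / 63 : ℝ) := by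
      refine (Real.rpow_le_rpow (by positivity) h3 (by norm_num)).trans ?_
      rw [Real.mul_rpow (by norm_num) (by positivity)]
      refine mul_le_mul_of_nonneg_right ?_ (by positivity)
      calc (4 : ℝ) ^ (1 / 63 : ℝ) ≤ 4 ^ (1 : ℝ) := Real.rpow_le_rpow_of_exponent_le (by norm_num) (by norm_num)
        _ = 4 := Real.rpow_one 4
    calc C * h * (R / (h : ℝ) ^ 5) ^ (1 / 63 : ℝ) ≤ C * (2 * K) * (4 * (R₀ / (K : ℝ) ^ 5) ^ (1 / 63 : ℝ)) := by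
          gcongr
      _ = _ := by ring
  · intro a b hab
    refine pow_le_pow_left₀ (hq0 b) ?_ i
    refine div_le_div_of_nonneg_left hKp.le (hKp.trans_le (hsq a)) ?_
    apply Real.sqrt_le_sqrt
    have : (a : ℝ) ≤ b := by exact_mod_cast hab
    have h0 : (0 : ℝ) ≤ a := Nat.cast_nonneg a
    nlinarith
  · intro j
    exact pow_nonneg (hq0 j) i
  · intro j
    exact pow_le_one₀ (hq0 j) (hq1 j)
  · intro m hm
    refine hone h R c.2 hh0 hRp ?_ ?_ m ?_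
    · calc R ≤ 4 * R₀ := hR2
        _ ≤ (K : ℝ) ^ 5 := hK5
        _ ≤ (h : ℝ) ^ 5 := pow_le_pow_left₀ hKp.le hh1 5
    · rw [le_div_iff₀ (by positivity)]
      calc (h : ℝ) ^ (-(6 / 5) : ℝ) * (h : ℝ) ^ 5 = (h : ℝ) ^ (19 / 5 : ℝ) := by
            rw [← Real.rpow_natCast (h : ℝ) 5, ← Real.rpow_add hhp]
            norm_num
        _ ≤ (2 * (K : ℝ)) ^ (19 / 5 : ℝ) := Real.rpow_le_rpow hhp.le hh2 (by norm_num)
        _ ≤ R₀ / 4 := hKs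
        _ ≤ R := hR1
    · exact_mod_cast hm

theorem oct_small : ∃ C : ℝ, 0 < C ∧ ∀ (R₀ R : ℝ) (K : ℕ), 1 ≤ R₀ → R₀ / 4 ≤ R → R ≤ 4 * R₀ → 1 ≤ K → 4 * R₀ ≤ (K : ℝ) ^ 5 →
    (2 * (K : ℝ)) ^ (19 / 5 : ℝ) ≤ R₀ / 4 → ∀ i : ℕ, (i = 1 ∨ i = 2) → ∀ c : ℝ × ℝ,
      ‖bs (oct K) K i R c‖ ≤ C * (K : ℝ) ^ 2 * (R₀ / (K : ℝ) ^ 5) ^ (1 / 63 : ℝ) := by
  obtain ⟨C, hC, hone⟩ := one_dim
  refine ⟨8 * C, by positivity, ?_⟩
  intro R₀ R K hR₀ hR1 hR2 hK hK5 hKs i _ c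
  unfold bs
  rw [oct_sum]
  refine (norm_sum_le _ _).trans ?_
  have h1 : ∀ h ∈ Finset.Ico K (2 * K), ‖∑ j ∈ Finset.range (h + 1),
      (((K : ℝ) / Pool.Agent.Helper22.AE.nk ((h : ℤ), (j : ℤ)) : ℝ) : ℂ) ^ i *
      Pool.Agent.Helper22.AE.ee (R * Pool.Agent.Helper22.AE.nk ((h : ℤ), (j : ℤ)) + dt ((h : ℤ), (j : ℤ)) c)‖ ≤
        8 * C * K * (R₀ / (K : ℝ) ^ 5) ^ (1 / 63 : ℝ) := by
    intro h hh
    rw [Finset.mem_Ico] at hh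
    exact row hC hone hR₀ hR1 hR2 hK hK5 hKs i c h hh.1 hh.2
  refine (Finset.sum_le_card_nsmul _ _ _ h1).trans ?_
  rw [Nat.card_Ico, nsmul_eq_mul]
  have h2 : ((2 * K - K : ℕ) : ℝ) = K := by
    congr 1
    omega
  rw [h2]
  apply le_of_eq
  ring

end Pool.Agent.Helper89.VD
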